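import Pool.Agent.Q169.CY.BaseInjA
import Pool.Agent.Q169.CY.BaseInjB

/-!
# Alpha-labelings of `C_k × P_N`: three layers
-/

set_option autoImplicit false
set_option linter.unusedSimpArgs false
set_option linter.unusedVariables false

namespace Pool.Agent.Q169.CY

/-- three layers: the last one is `X0` -/
theorem off_three {m : ℕ} (hm : 4 ≤ m) (hm5 : m ≠ 5) : Off (4 * m + 2) 3 (yb m) (10 * m + 5) (10 * m + 4) := by
  refine { range := ?_, vinj := ?_, einj := ?_ }
  · intro j i hj hi
    interval_cases j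
    · show 0 ≤ W1 m i ∧ W1 m i ≤ _
      unfold W1
      split_ifs <;> omega
    · show 0 ≤ W2 m i ∧ W2 m i ≤ _
      unfold W2
      split_ifs <;> omega
    · show 0 ≤ X0 m i ∧ X0 m i ≤ _
      unfold X0
      split_ifs <;> omega
  · have h00 : ∀ i i', i < 4 * m + 2 → i' < 4 * m + 2 → i % 2 = i' % 2 → W1 m i = W1 m i' → i = i' := by
      intro i i' hi hi' hp he
      unfold W1 at he
      split_ifs at he <;> omega
    have h11 : ∀ i i', i < 4 * m + 2 → i' < 4 * m + 2 → i % 2 = i' % 2 → W2 m i = W2 m i' → i = i' := by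
      intro i i' hi hi' hp he
      unfold W2 at he
      split_ifs at he <;> omega
    have h22 : ∀ i i', i < 4 * m + 2 → i' < 4 * m + 2 → i % 2 = i' % 2 → X0 m i = X0 m i' → i = i' := by
      intro i i' hi hi' hp he
      unfold X0 at he
      split_ifs at he <;> omega
    have h01 : ∀ i i', i < 4 * m + 2 → i' < 4 * m + 2 → i % 2 ≠ i' % 2 → W1 m i ≠ W2 m i' := by
      intro i i' hi hi' hp he
      unfold W1 W2 at he
      split_ifs at he <;> omega
    have h02 : ∀ i i', i < 4 * m + 2 → i' < 4 * m + 2 → W1 m i ≠ X0 m i' := by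
      intro i i' hi hi' he
      unfold W1 X0 at he
      split_ifs at he <;> omega
    have h12 : ∀ i i', i < 4 * m + 2 → i' < 4 * m + 2 → i % 2 ≠ i' % 2 → W2 m i ≠ X0 m i' := by
      intro i i' hi hi' hp he
      unfold W2 X0 at he
      split_ifs at he <;> omega
    intro j i j' i' hj hi hj' hi' hp he
    interval_cases j <;> interval_cases j'
    · exact ⟨rfl, h00 i i' hi hi' (by omega) he⟩
    · exact absurd he (h01 i i' hi hi' (by omega))
    · exact absurd he (h02 i i' hi hi')
    · exact absurd he.symm (h01 i' i hi' hi (by omega))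
    · exact ⟨rfl, h11 i i' hi hi' (by omega) he⟩
    · exact absurd he (h12 i i' hi hi' (by omega))
    · exact absurd he.symm (h02 i' i hi' hi)
    · exact absurd he.symm (h12 i' i hi' hi (by omega))
    · exact ⟨rfl, h22 i i' hi hi' (by omega) he⟩
  · have key : ∀ e i e' i', e < 5 → i < 4 * m + 2 → e' < 5 → i' < 4 * m + 2 → BS m e i = BS m e' i' → e = e' ∧ i = i' := by
      intro e i e' i' he hi he' hi' h
      interval_cases e <;> interval_cases e'
      · exact ⟨rfl, QB0 hm hi hi' h⟩
      · exact absurd h (QB0_1 hm hi hi')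
      · exact absurd h (QB0_2 hm hi hi')
      · exact absurd h (QB0_3 hm hi hi')
      · exact absurd h (QB0_4 hm hi hi')
      · exact absurd h.symm (QB0_1 hm hi' hi)
      · exact ⟨rfl, QB1 hm hi hi' h⟩
      · exact absurd h (QB1_2 hm hi hi')
      · exact absurd h (QB1_3 hm hi hi')
      · exact absurd h (QB1_4 hm hi hi')
      · exact absurd h.symm (QB0_2 hm hi' hi)
      · exact absurd h.symm (QB1_2 hm hi' hi)
      · exact ⟨rfl, QB2 hm hi hi' h⟩
      · exact absurd h (QB2_3 hm hi hi')
      · exact absurd h (QB2_4 hm hi hi')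
      · exact absurd h.symm (QB0_3 hm hi' hi)
      · exact absurd h.symm (QB1_3 hm hi' hi)
      · exact absurd h.symm (QB2_3 hm hi' hi)
      · exact ⟨rfl, QB3 hm hi hi' h⟩
      · exact absurd h (QB3_4 hm hi hi')
      · exact absurd h.symm (QB0_4 hm hi' hi)
      · exact absurd h.symm (QB1_4 hm hi' hi)
      · exact absurd h.symm (QB2_4 hm hi' hi)
      · exact absurd h.symm (QB3_4 hm hi' hi)
      · exact ⟨rfl, QB4 hm hi hi' h⟩
    intro t j i t' j' i' ht hj hi ht' hj' hi' he
    have e1 : ∀ t j i, t < 2 → es (4 * m + 2) (yb m) t j i = BS m (2 * j + t) i := by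
      intro t j i ht
      unfold BS
      have h1 : (2 * j + t) % 2 = t := by omega
      have h2 : (2 * j + t) / 2 = j := by omega
      rw [h1, h2]
    rw [e1 t j i ht, e1 t' j' i' ht'] at he
    obtain ⟨h1, h2⟩ := key _ _ _ _ (by omega) hi (by omega) hi' he
    exact ⟨by omega, by omega, h2⟩

end Pool.Agent.Q169.CY
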