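import Pool.Agent.Q169.CY.StepData

/-!
# Alpha-labelings of `C_k × P_N`: three layers
-/

set_option autoImplicit false
set_option linter.unusedSimpArgs false
set_option linter.unusedVariables false
set_option linter.unnecessarySeqFocus false

namespace Pool.Agent.Q169.CY

/-- the distances in the first of three layers -/
def W1 (m i : ℕ) : ℤ :=
  if i % 2 = 0 then
    (if i / 2 ≤ 0 then 10 * (m : ℤ) + 5 else
    if i / 2 + 2 ≤ m then 8 * (m : ℤ) + ((i / 2 : ℕ) : ℤ) + 3 else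
    8 * (m : ℤ) + ((i / 2 : ℕ) : ℤ) + 4)
  else
    (if i / 2 ≤ 0 then 8 * (m : ℤ) - 1 else
    8 * (m : ℤ) + ((i / 2 : ℕ) : ℤ) + 4)

/-- the distances in the second of three layers -/
def W2 (m i : ℕ) : ℤ :=
  if i % 2 = 0 then
    (if i / 2 ≤ 0 then 6 * (m : ℤ) + 2 else
    if i / 2 + 2 ≤ m then 6 * (m : ℤ) + ((i / 2 : ℕ) : ℤ) + 3 else
    if i / 2 + 1 ≤ m then 5 * (m : ℤ) - 2 else
    if i / 2 + 2 ≤ 2 * m then 4 * (m : ℤ) + ((i / 2 : ℕ) : ℤ) + 1 else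
    if i / 2 + 1 ≤ 2 * m then 4 * (m : ℤ) + 3 else
    6 * (m : ℤ) + 1)
  else
    (if i / 2 + 3 ≤ m then 4 * (m : ℤ) + ((i / 2 : ℕ) : ℤ) + 1 else
    if i / 2 + 1 ≤ m then 4 * (m : ℤ) + ((i / 2 : ℕ) : ℤ) + 2 else
    if i / 2 ≤ m then 5 * (m : ℤ) - 1 else
    if i / 2 ≤ m + 1 then 7 * (m : ℤ) + 3 else
    if i / 2 + 2 ≤ 2 * m then 2 * (m : ℤ) + ((i / 2 : ℕ) : ℤ) else
    4 * (m : ℤ) + ((i / 2 : ℕ) : ℤ) + 2)

theorem W1_0_0 {m i : ℕ} (hm : 4 ≤ m) (h1 : i % 2 = 0) (h3 : i / 2 ≤ 0) :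
    W1 m i = 10 * (m : ℤ) + 5 := by
  unfold W1
  split_ifs <;> omega

theorem W1_0_1 {m i : ℕ} (hm : 4 ≤ m) (h1 : i % 2 = 0) (h2 : 1 ≤ i / 2) (h3 : i / 2 + 2 ≤ m) :
    W1 m i = 8 * (m : ℤ) + ((i / 2 : ℕ) : ℤ) + 3 := by
  unfold W1
  split_ifs <;> omega

theorem W1_0_2 {m i : ℕ} (hm : 4 ≤ m) (h1 : i % 2 = 0) (h2 : m ≤ i / 2 + 1) :
    W1 m i = 8 * (m : ℤ) + ((i / 2 : ℕ) : ℤ) + 4 := by
  unfold W1
  split_ifs <;> omega

theorem W1_1_0 {m i : ℕ} (hm : 4 ≤ m) (h1 : i % 2 = 1) (h3 : i / 2 ≤ 0) :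
    W1 m i = 8 * (m : ℤ) - 1 := by
  unfold W1
  split_ifs <;> omega

theorem W1_1_1 {m i : ℕ} (hm : 4 ≤ m) (h1 : i % 2 = 1) (h2 : 1 ≤ i / 2) :
    W1 m i = 8 * (m : ℤ) + ((i / 2 : ℕ) : ℤ) + 4 := by
  unfold W1
  split_ifs <;> omega

theorem W2_0_0 {m i : ℕ} (hm : 4 ≤ m) (h1 : i % 2 = 0) (h3 : i / 2 ≤ 0) :
    W2 m i = 6 * (m : ℤ) + 2 := by
  unfold W2
  split_ifs <;> omega

theorem W2_0_1 {m i : ℕ} (hm : 4 ≤ m) (h1 : i % 2 = 0) (h2 : 1 ≤ i / 2) (h3 : i / 2 + 2 ≤ m) :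
    W2 m i = 6 * (m : ℤ) + ((i / 2 : ℕ) : ℤ) + 3 := by
  unfold W2
  split_ifs <;> omega

theorem W2_0_2 {m i : ℕ} (hm : 4 ≤ m) (h1 : i % 2 = 0) (h2 : m ≤ i / 2 + 1) (h3 : i / 2 + 1 ≤ m) :
    W2 m i = 5 * (m : ℤ) - 2 := by
  unfold W2
  split_ifs <;> omega

theorem W2_0_3 {m i : ℕ} (hm : 4 ≤ m) (h1 : i % 2 = 0) (h2 : m ≤ i / 2) (h3 : i / 2 + 2 ≤ 2 * m) :
    W2 m i = 4 * (m : ℤ) + ((i / 2 : ℕ) : ℤ) + 1 := by
  unfold W2
  split_ifs <;> omega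

theorem W2_0_4 {m i : ℕ} (hm : 4 ≤ m) (h1 : i % 2 = 0) (h2 : 2 * m ≤ i / 2 + 1) (h3 : i / 2 + 1 ≤ 2 * m) :
    W2 m i = 4 * (m : ℤ) + 3 := by
  unfold W2
  split_ifs <;> omega

theorem W2_0_5 {m i : ℕ} (hm : 4 ≤ m) (h1 : i % 2 = 0) (h2 : 2 * m ≤ i / 2) :
    W2 m i = 6 * (m : ℤ) + 1 := by
  unfold W2
  split_ifs <;> omega

theorem W2_1_0 {m i : ℕ} (hm : 4 ≤ m) (h1 : i % 2 = 1) (h3 : i / 2 + 3 ≤ m) :
    W2 m i = 4 * (m : ℤ) + ((i / 2 : ℕ) : ℤ) + 1 := by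
  unfold W2
  split_ifs <;> omega

theorem W2_1_1 {m i : ℕ} (hm : 4 ≤ m) (h1 : i % 2 = 1) (h2 : m ≤ i / 2 + 2) (h3 : i / 2 + 1 ≤ m) :
    W2 m i = 4 * (m : ℤ) + ((i / 2 : ℕ) : ℤ) + 2 := by
  unfold W2
  split_ifs <;> omega

theorem W2_1_2 {m i : ℕ} (hm : 4 ≤ m) (h1 : i % 2 = 1) (h2 : m ≤ i / 2) (h3 : i / 2 ≤ m) :
    W2 m i = 5 * (m : ℤ) - 1 := by
  unfold W2
  split_ifs <;> omega

theorem W2_1_3 {m i : ℕ} (hm : 4 ≤ m) (h1 : i % 2 = 1) (h2 : m + 1 ≤ i / 2) (h3 : i / 2 ≤ m + 1) :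
    W2 m i = 7 * (m : ℤ) + 3 := by
  unfold W2
  split_ifs <;> omega

theorem W2_1_4 {m i : ℕ} (hm : 4 ≤ m) (h1 : i % 2 = 1) (h2 : m + 2 ≤ i / 2) (h3 : i / 2 + 2 ≤ 2 * m) :
    W2 m i = 2 * (m : ℤ) + ((i / 2 : ℕ) : ℤ) := by
  unfold W2
  split_ifs <;> omega

theorem W2_1_5 {m i : ℕ} (hm : 4 ≤ m) (h1 : i % 2 = 1) (h2 : 2 * m ≤ i / 2 + 1) :
    W2 m i = 4 * (m : ℤ) + ((i / 2 : ℕ) : ℤ) + 2 := by
  unfold W2
  split_ifs <;> omega

/-- the distances in the three layers -/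
def yb (m j i : ℕ) : ℤ := if j = 0 then W1 m i else if j = 1 then W2 m i else X0 m i

/-- the sums of the edges -/
def BS (m e i : ℕ) : ℤ := es (4 * m + 2) (yb m) (e % 2) (e / 2) i

theorem BS_0 (m i : ℕ) : BS m 0 i = W1 m i + W1 m (nx (4 * m + 2) i) := by
  simp [BS, es, yb]

theorem BS_1 (m i : ℕ) : BS m 1 i = W1 m i + W2 m i := by
  simp [BS, es, yb]

theorem BS_2 (m i : ℕ) : BS m 2 i = W2 m i + W2 m (nx (4 * m + 2) i) := by
  simp [BS, es, yb]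

theorem BS_3 (m i : ℕ) : BS m 3 i = W2 m i + X0 m i := by
  simp [BS, es, yb]

theorem BS_4 (m i : ℕ) : BS m 4 i = X0 m i + X0 m (nx (4 * m + 2) i) := by
  simp [BS, es, yb]

theorem PB0 {m i : ℕ} (hm : 4 ≤ m) (hi : i < 4 * m + 2) :
    (i % 2 = 0 ∧ 0 ≤ i / 2 ∧ i / 2 ≤ 0 ∧ BS m 0 i = 18 * (m : ℤ) + 4) ∨
    (i % 2 = 0 ∧ 1 ≤ i / 2 ∧ i / 2 + 2 ≤ m ∧ BS m 0 i = 16 * (m : ℤ) + 2 * ((i / 2 : ℕ) : ℤ) + 7) ∨
    (i % 2 = 0 ∧ m ≤ i / 2 + 1 ∧ i / 2 ≤ 2 * m ∧ BS m 0 i = 16 * (m : ℤ) + 2 * ((i / 2 : ℕ) : ℤ) + 8) ∨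
    (i % 2 = 1 ∧ 0 ≤ i / 2 ∧ i / 2 ≤ 0 ∧ BS m 0 i = 16 * (m : ℤ) + ((i / 2 : ℕ) : ℤ) + 3) ∨
    (i % 2 = 1 ∧ 1 ≤ i / 2 ∧ i / 2 + 3 ≤ m ∧ BS m 0 i = 16 * (m : ℤ) + 2 * ((i / 2 : ℕ) : ℤ) + 8) ∨
    (i % 2 = 1 ∧ m ≤ i / 2 + 2 ∧ i / 2 + 1 ≤ 2 * m ∧ BS m 0 i = 16 * (m : ℤ) + 2 * ((i / 2 : ℕ) : ℤ) + 9) ∨
    (i % 2 = 1 ∧ 2 * m ≤ i / 2 ∧ i / 2 ≤ 2 * m ∧ BS m 0 i = 18 * (m : ℤ) + ((i / 2 : ℕ) : ℤ) + 9) := by
  rcases Nat.mod_two_eq_zero_or_one i with hp | hp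
  · by_cases c0 : i / 2 ≤ 0
    · refine Or.inl ⟨hp, by omega, by omega, ?_⟩
      have en : nx (4 * m + 2) i = i + 1 := nx_succ (by omega)
      have e1 := W1_0_0 (m := m) (i := i) hm (by omega) (by omega)
      have e2 := W1_1_0 (m := m) (i := (i + 1)) hm (by omega) (by omega)
      rw [BS_0]
      rw [en]
      omega
    by_cases c1 : i / 2 + 2 ≤ m
    · refine Or.inr (Or.inl ⟨hp, by omega, by omega, ?_⟩)
      have en : nx (4 * m + 2) i = i + 1 := nx_succ (by omega)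
      have e1 := W1_0_1 (m := m) (i := i) hm (by omega) (by omega) (by omega)
      have e2 := W1_1_1 (m := m) (i := (i + 1)) hm (by omega) (by omega)
      rw [BS_0]
      rw [en]
      omega
    refine Or.inr (Or.inr (Or.inl ⟨hp, by omega, by omega, ?_⟩))
    have en : nx (4 * m + 2) i = i + 1 := nx_succ (by omega)
    have e1 := W1_0_2 (m := m) (i := i) hm (by omega) (by omega)
    have e2 := W1_1_1 (m := m) (i := (i + 1)) hm (by omega) (by omega)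
    rw [BS_0]
    rw [en]
    omega
  · by_cases c0 : i / 2 ≤ 0
    · refine Or.inr (Or.inr (Or.inr (Or.inl ⟨hp, by omega, by omega, ?_⟩)))
      have en : nx (4 * m + 2) i = i + 1 := nx_succ (by omega)
      have e1 := W1_1_0 (m := m) (i := i) hm (by omega) (by omega)
      have e2 := W1_0_1 (m := m) (i := (i + 1)) hm (by omega) (by omega) (by omega)
      rw [BS_0]
      rw [en]
      omega
    by_cases c1 : i / 2 + 3 ≤ m
    · refine Or.inr (Or.inr (Or.inr (Or.inr (Or.inl ⟨hp, by omega, by omega, ?_⟩))))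
      have en : nx (4 * m + 2) i = i + 1 := nx_succ (by omega)
      have e1 := W1_1_1 (m := m) (i := i) hm (by omega) (by omega)
      have e2 := W1_0_1 (m := m) (i := (i + 1)) hm (by omega) (by omega) (by omega)
      rw [BS_0]
      rw [en]
      omega
    by_cases c2 : i / 2 + 1 ≤ 2 * m
    · refine Or.inr (Or.inr (Or.inr (Or.inr (Or.inr (Or.inl ⟨hp, by omega, by omega, ?_⟩)))))
      have en : nx (4 * m + 2) i = i + 1 := nx_succ (by omega)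
      have e1 := W1_1_1 (m := m) (i := i) hm (by omega) (by omega)
      have e2 := W1_0_2 (m := m) (i := (i + 1)) hm (by omega) (by omega)
      rw [BS_0]
      rw [en]
      omega
    refine Or.inr (Or.inr (Or.inr (Or.inr (Or.inr (Or.inr (⟨hp, by omega, by omega, ?_⟩))))))
    have en : nx (4 * m + 2) i = 0 := nx_last (by omega)
    have e1 := W1_1_1 (m := m) (i := i) hm (by omega) (by omega)
    have e2 := W1_0_0 (m := m) (i := 0) hm (by omega) (by omega)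
    rw [BS_0]
    rw [en]
    omega

theorem PB1 {m i : ℕ} (hm : 4 ≤ m) (hi : i < 4 * m + 2) :
    (i % 2 = 0 ∧ 0 ≤ i / 2 ∧ i / 2 ≤ 0 ∧ BS m 1 i = 16 * (m : ℤ) + 7) ∨
    (i % 2 = 0 ∧ 1 ≤ i / 2 ∧ i / 2 + 2 ≤ m ∧ BS m 1 i = 14 * (m : ℤ) + 2 * ((i / 2 : ℕ) : ℤ) + 6) ∨
    (i % 2 = 0 ∧ m ≤ i / 2 + 1 ∧ i / 2 + 1 ≤ m ∧ BS m 1 i = 13 * (m : ℤ) + ((i / 2 : ℕ) : ℤ) + 2) ∨
    (i % 2 = 0 ∧ m ≤ i / 2 ∧ i / 2 + 2 ≤ 2 * m ∧ BS m 1 i = 12 * (m : ℤ) + 2 * ((i / 2 : ℕ) : ℤ) + 5) ∨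
    (i % 2 = 0 ∧ 2 * m ≤ i / 2 + 1 ∧ i / 2 + 1 ≤ 2 * m ∧ BS m 1 i = 12 * (m : ℤ) + ((i / 2 : ℕ) : ℤ) + 7) ∨
    (i % 2 = 0 ∧ 2 * m ≤ i / 2 ∧ i / 2 ≤ 2 * m ∧ BS m 1 i = 14 * (m : ℤ) + ((i / 2 : ℕ) : ℤ) + 5) ∨
    (i % 2 = 1 ∧ 0 ≤ i / 2 ∧ i / 2 ≤ 0 ∧ BS m 1 i = 12 * (m : ℤ) + ((i / 2 : ℕ) : ℤ)) ∨
    (i % 2 = 1 ∧ 1 ≤ i / 2 ∧ i / 2 + 3 ≤ m ∧ BS m 1 i = 12 * (m : ℤ) + 2 * ((i / 2 : ℕ) : ℤ) + 5) ∨
    (i % 2 = 1 ∧ m ≤ i / 2 + 2 ∧ i / 2 + 1 ≤ m ∧ BS m 1 i = 12 * (m : ℤ) + 2 * ((i / 2 : ℕ) : ℤ) + 6) ∨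
    (i % 2 = 1 ∧ m ≤ i / 2 ∧ i / 2 ≤ m ∧ BS m 1 i = 13 * (m : ℤ) + ((i / 2 : ℕ) : ℤ) + 3) ∨
    (i % 2 = 1 ∧ m + 1 ≤ i / 2 ∧ i / 2 ≤ m + 1 ∧ BS m 1 i = 15 * (m : ℤ) + ((i / 2 : ℕ) : ℤ) + 7) ∨
    (i % 2 = 1 ∧ m + 2 ≤ i / 2 ∧ i / 2 + 2 ≤ 2 * m ∧ BS m 1 i = 10 * (m : ℤ) + 2 * ((i / 2 : ℕ) : ℤ) + 4) ∨
    (i % 2 = 1 ∧ 2 * m ≤ i / 2 + 1 ∧ i / 2 ≤ 2 * m ∧ BS m 1 i = 12 * (m : ℤ) + 2 * ((i / 2 : ℕ) : ℤ) + 6) := by
  rcases Nat.mod_two_eq_zero_or_one i with hp | hp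
  · by_cases c0 : i / 2 ≤ 0
    · refine Or.inl ⟨hp, by omega, by omega, ?_⟩
      have e1 := W1_0_0 (m := m) (i := i) hm (by omega) (by omega)
      have e2 := W2_0_0 (m := m) (i := i) hm (by omega) (by omega)
      rw [BS_1]
      omega
    by_cases c1 : i / 2 + 2 ≤ m
    · refine Or.inr (Or.inl ⟨hp, by omega, by omega, ?_⟩)
      have e1 := W1_0_1 (m := m) (i := i) hm (by omega) (by omega) (by omega)
      have e2 := W2_0_1 (m := m) (i := i) hm (by omega) (by omega) (by omega)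
      rw [BS_1]
      omega
    by_cases c2 : i / 2 + 1 ≤ m
    · refine Or.inr (Or.inr (Or.inl ⟨hp, by omega, by omega, ?_⟩))
      have e1 := W1_0_2 (m := m) (i := i) hm (by omega) (by omega)
      have e2 := W2_0_2 (m := m) (i := i) hm (by omega) (by omega) (by omega)
      rw [BS_1]
      omega
    by_cases c3 : i / 2 + 2 ≤ 2 * m
    · refine Or.inr (Or.inr (Or.inr (Or.inl ⟨hp, by omega, by omega, ?_⟩)))
      have e1 := W1_0_2 (m := m) (i := i) hm (by omega) (by omega)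
      have e2 := W2_0_3 (m := m) (i := i) hm (by omega) (by omega) (by omega)
      rw [BS_1]
      omega
    by_cases c4 : i / 2 + 1 ≤ 2 * m
    · refine Or.inr (Or.inr (Or.inr (Or.inr (Or.inl ⟨hp, by omega, by omega, ?_⟩))))
      have e1 := W1_0_2 (m := m) (i := i) hm (by omega) (by omega)
      have e2 := W2_0_4 (m := m) (i := i) hm (by omega) (by omega) (by omega)
      rw [BS_1]
      omega
    refine Or.inr (Or.inr (Or.inr (Or.inr (Or.inr (Or.inl ⟨hp, by omega, by omega, ?_⟩)))))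
    have e1 := W1_0_2 (m := m) (i := i) hm (by omega) (by omega)
    have e2 := W2_0_5 (m := m) (i := i) hm (by omega) (by omega)
    rw [BS_1]
    omega
  · by_cases c0 : i / 2 ≤ 0
    · refine Or.inr (Or.inr (Or.inr (Or.inr (Or.inr (Or.inr (Or.inl ⟨hp, by omega, by omega, ?_⟩))))))
      have e1 := W1_1_0 (m := m) (i := i) hm (by omega) (by omega)
      have e2 := W2_1_0 (m := m) (i := i) hm (by omega) (by omega)
      rw [BS_1]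
      omega
    by_cases c1 : i / 2 + 3 ≤ m
    · refine Or.inr (Or.inr (Or.inr (Or.inr (Or.inr (Or.inr (Or.inr (Or.inl ⟨hp, by omega, by omega, ?_⟩)))))))
      have e1 := W1_1_1 (m := m) (i := i) hm (by omega) (by omega)
      have e2 := W2_1_0 (m := m) (i := i) hm (by omega) (by omega)
      rw [BS_1]
      omega
    by_cases c2 : i / 2 + 1 ≤ m
    · refine Or.inr (Or.inr (Or.inr (Or.inr (Or.inr (Or.inr (Or.inr (Or.inr (Or.inl ⟨hp, by omega, by omega, ?_⟩))))))))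
      have e1 := W1_1_1 (m := m) (i := i) hm (by omega) (by omega)
      have e2 := W2_1_1 (m := m) (i := i) hm (by omega) (by omega) (by omega)
      rw [BS_1]
      omega
    by_cases c3 : i / 2 ≤ m
    · refine Or.inr (Or.inr (Or.inr (Or.inr (Or.inr (Or.inr (Or.inr (Or.inr (Or.inr (Or.inl ⟨hp, by omega, by omega, ?_⟩)))))))))
      have e1 := W1_1_1 (m := m) (i := i) hm (by omega) (by omega)
      have e2 := W2_1_2 (m := m) (i := i) hm (by omega) (by omega) (by omega)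
      rw [BS_1]
      omega
    by_cases c4 : i / 2 ≤ m + 1
    · refine Or.inr (Or.inr (Or.inr (Or.inr (Or.inr (Or.inr (Or.inr (Or.inr (Or.inr (Or.inr (Or.inl ⟨hp, by omega, by omega, ?_⟩))))))))))
      have e1 := W1_1_1 (m := m) (i := i) hm (by omega) (by omega)
      have e2 := W2_1_3 (m := m) (i := i) hm (by omega) (by omega) (by omega)
      rw [BS_1]
      omega
    by_cases c5 : i / 2 + 2 ≤ 2 * m
    · refine Or.inr (Or.inr (Or.inr (Or.inr (Or.inr (Or.inr (Or.inr (Or.inr (Or.inr (Or.inr (Or.inr (Or.inl ⟨hp, by omega, by omega, ?_⟩)))))))))))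
      have e1 := W1_1_1 (m := m) (i := i) hm (by omega) (by omega)
      have e2 := W2_1_4 (m := m) (i := i) hm (by omega) (by omega) (by omega)
      rw [BS_1]
      omega
    refine Or.inr (Or.inr (Or.inr (Or.inr (Or.inr (Or.inr (Or.inr (Or.inr (Or.inr (Or.inr (Or.inr (Or.inr (⟨hp, by omega, by omega, ?_⟩))))))))))))
    have e1 := W1_1_1 (m := m) (i := i) hm (by omega) (by omega)
    have e2 := W2_1_5 (m := m) (i := i) hm (by omega) (by omega)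
    rw [BS_1]
    omega

theorem PB2 {m i : ℕ} (hm : 4 ≤ m) (hi : i < 4 * m + 2) :
    (i % 2 = 0 ∧ 0 ≤ i / 2 ∧ i / 2 ≤ 0 ∧ BS m 2 i = 10 * (m : ℤ) + ((i / 2 : ℕ) : ℤ) + 3) ∨
    (i % 2 = 0 ∧ 1 ≤ i / 2 ∧ i / 2 + 3 ≤ m ∧ BS m 2 i = 10 * (m : ℤ) + 2 * ((i / 2 : ℕ) : ℤ) + 4) ∨
    (i % 2 = 0 ∧ m ≤ i / 2 + 2 ∧ i / 2 + 2 ≤ m ∧ BS m 2 i = 10 * (m : ℤ) + 2 * ((i / 2 : ℕ) : ℤ) + 5) ∨
    (i % 2 = 0 ∧ m ≤ i / 2 + 1 ∧ i / 2 + 1 ≤ m ∧ BS m 2 i = 9 * (m : ℤ) + ((i / 2 : ℕ) : ℤ)) ∨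
    (i % 2 = 0 ∧ m ≤ i / 2 ∧ i / 2 ≤ m ∧ BS m 2 i = 9 * (m : ℤ) + ((i / 2 : ℕ) : ℤ)) ∨
    (i % 2 = 0 ∧ m + 1 ≤ i / 2 ∧ i / 2 ≤ m + 1 ∧ BS m 2 i = 11 * (m : ℤ) + ((i / 2 : ℕ) : ℤ) + 4) ∨
    (i % 2 = 0 ∧ m + 2 ≤ i / 2 ∧ i / 2 + 2 ≤ 2 * m ∧ BS m 2 i = 6 * (m : ℤ) + 2 * ((i / 2 : ℕ) : ℤ) + 1) ∨
    (i % 2 = 0 ∧ 2 * m ≤ i / 2 + 1 ∧ i / 2 + 1 ≤ 2 * m ∧ BS m 2 i = 8 * (m : ℤ) + ((i / 2 : ℕ) : ℤ) + 5) ∨
    (i % 2 = 0 ∧ 2 * m ≤ i / 2 ∧ i / 2 ≤ 2 * m ∧ BS m 2 i = 10 * (m : ℤ) + ((i / 2 : ℕ) : ℤ) + 3) ∨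
    (i % 2 = 1 ∧ 0 ≤ i / 2 ∧ i / 2 + 3 ≤ m ∧ BS m 2 i = 10 * (m : ℤ) + 2 * ((i / 2 : ℕ) : ℤ) + 5) ∨
    (i % 2 = 1 ∧ m ≤ i / 2 + 2 ∧ i / 2 + 2 ≤ m ∧ BS m 2 i = 9 * (m : ℤ) + ((i / 2 : ℕ) : ℤ)) ∨
    (i % 2 = 1 ∧ m ≤ i / 2 + 1 ∧ i / 2 + 1 ≤ m ∧ BS m 2 i = 8 * (m : ℤ) + 2 * ((i / 2 : ℕ) : ℤ) + 4) ∨
    (i % 2 = 1 ∧ m ≤ i / 2 ∧ i / 2 ≤ m ∧ BS m 2 i = 9 * (m : ℤ) + ((i / 2 : ℕ) : ℤ) + 1) ∨
    (i % 2 = 1 ∧ m + 1 ≤ i / 2 ∧ i / 2 ≤ m + 1 ∧ BS m 2 i = 11 * (m : ℤ) + ((i / 2 : ℕ) : ℤ) + 5) ∨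
    (i % 2 = 1 ∧ m + 2 ≤ i / 2 ∧ i / 2 + 3 ≤ 2 * m ∧ BS m 2 i = 6 * (m : ℤ) + 2 * ((i / 2 : ℕ) : ℤ) + 2) ∨
    (i % 2 = 1 ∧ 2 * m ≤ i / 2 + 2 ∧ i / 2 + 2 ≤ 2 * m ∧ BS m 2 i = 6 * (m : ℤ) + ((i / 2 : ℕ) : ℤ) + 3) ∨
    (i % 2 = 1 ∧ 2 * m ≤ i / 2 + 1 ∧ i / 2 + 1 ≤ 2 * m ∧ BS m 2 i = 10 * (m : ℤ) + ((i / 2 : ℕ) : ℤ) + 3) ∨
    (i % 2 = 1 ∧ 2 * m ≤ i / 2 ∧ i / 2 ≤ 2 * m ∧ BS m 2 i = 10 * (m : ℤ) + ((i / 2 : ℕ) : ℤ) + 4) := by
  rcases Nat.mod_two_eq_zero_or_one i with hp | hp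
  · by_cases c0 : i / 2 ≤ 0
    · refine Or.inl ⟨hp, by omega, by omega, ?_⟩
      have en : nx (4 * m + 2) i = i + 1 := nx_succ (by omega)
      have e1 := W2_0_0 (m := m) (i := i) hm (by omega) (by omega)
      have e2 := W2_1_0 (m := m) (i := (i + 1)) hm (by omega) (by omega)
      rw [BS_2]
      rw [en]
      omega
    by_cases c1 : i / 2 + 3 ≤ m
    · refine Or.inr (Or.inl ⟨hp, by omega, by omega, ?_⟩)
      have en : nx (4 * m + 2) i = i + 1 := nx_succ (by omega)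
      have e1 := W2_0_1 (m := m) (i := i) hm (by omega) (by omega) (by omega)
      have e2 := W2_1_0 (m := m) (i := (i + 1)) hm (by omega) (by omega)
      rw [BS_2]
      rw [en]
      omega
    by_cases c2 : i / 2 + 2 ≤ m
    · refine Or.inr (Or.inr (Or.inl ⟨hp, by omega, by omega, ?_⟩))
      have en : nx (4 * m + 2) i = i + 1 := nx_succ (by omega)
      have e1 := W2_0_1 (m := m) (i := i) hm (by omega) (by omega) (by omega)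
      have e2 := W2_1_1 (m := m) (i := (i + 1)) hm (by omega) (by omega) (by omega)
      rw [BS_2]
      rw [en]
      omega
    by_cases c3 : i / 2 + 1 ≤ m
    · refine Or.inr (Or.inr (Or.inr (Or.inl ⟨hp, by omega, by omega, ?_⟩)))
      have en : nx (4 * m + 2) i = i + 1 := nx_succ (by omega)
      have e1 := W2_0_2 (m := m) (i := i) hm (by omega) (by omega) (by omega)
      have e2 := W2_1_1 (m := m) (i := (i + 1)) hm (by omega) (by omega) (by omega)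
      rw [BS_2]
      rw [en]
      omega
    by_cases c4 : i / 2 ≤ m
    · refine Or.inr (Or.inr (Or.inr (Or.inr (Or.inl ⟨hp, by omega, by omega, ?_⟩))))
      have en : nx (4 * m + 2) i = i + 1 := nx_succ (by omega)
      have e1 := W2_0_3 (m := m) (i := i) hm (by omega) (by omega) (by omega)
      have e2 := W2_1_2 (m := m) (i := (i + 1)) hm (by omega) (by omega) (by omega)
      rw [BS_2]
      rw [en]
      omega
    by_cases c5 : i / 2 ≤ m + 1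
    · refine Or.inr (Or.inr (Or.inr (Or.inr (Or.inr (Or.inl ⟨hp, by omega, by omega, ?_⟩)))))
      have en : nx (4 * m + 2) i = i + 1 := nx_succ (by omega)
      have e1 := W2_0_3 (m := m) (i := i) hm (by omega) (by omega) (by omega)
      have e2 := W2_1_3 (m := m) (i := (i + 1)) hm (by omega) (by omega) (by omega)
      rw [BS_2]
      rw [en]
      omega
    by_cases c6 : i / 2 + 2 ≤ 2 * m
    · refine Or.inr (Or.inr (Or.inr (Or.inr (Or.inr (Or.inr (Or.inl ⟨hp, by omega, by omega, ?_⟩))))))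
      have en : nx (4 * m + 2) i = i + 1 := nx_succ (by omega)
      have e1 := W2_0_3 (m := m) (i := i) hm (by omega) (by omega) (by omega)
      have e2 := W2_1_4 (m := m) (i := (i + 1)) hm (by omega) (by omega) (by omega)
      rw [BS_2]
      rw [en]
      omega
    by_cases c7 : i / 2 + 1 ≤ 2 * m
    · refine Or.inr (Or.inr (Or.inr (Or.inr (Or.inr (Or.inr (Or.inr (Or.inl ⟨hp, by omega, by omega, ?_⟩)))))))
      have en : nx (4 * m + 2) i = i + 1 := nx_succ (by omega)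
      have e1 := W2_0_4 (m := m) (i := i) hm (by omega) (by omega) (by omega)
      have e2 := W2_1_5 (m := m) (i := (i + 1)) hm (by omega) (by omega)
      rw [BS_2]
      rw [en]
      omega
    refine Or.inr (Or.inr (Or.inr (Or.inr (Or.inr (Or.inr (Or.inr (Or.inr (Or.inl ⟨hp, by omega, by omega, ?_⟩))))))))
    have en : nx (4 * m + 2) i = i + 1 := nx_succ (by omega)
    have e1 := W2_0_5 (m := m) (i := i) hm (by omega) (by omega)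
    have e2 := W2_1_5 (m := m) (i := (i + 1)) hm (by omega) (by omega)
    rw [BS_2]
    rw [en]
    omega
  · by_cases c0 : i / 2 + 3 ≤ m
    · refine Or.inr (Or.inr (Or.inr (Or.inr (Or.inr (Or.inr (Or.inr (Or.inr (Or.inr (Or.inl ⟨hp, by omega, by omega, ?_⟩)))))))))
      have en : nx (4 * m + 2) i = i + 1 := nx_succ (by omega)
      have e1 := W2_1_0 (m := m) (i := i) hm (by omega) (by omega)
      have e2 := W2_0_1 (m := m) (i := (i + 1)) hm (by omega) (by omega) (by omega)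
      rw [BS_2]
      rw [en]
      omega
    by_cases c1 : i / 2 + 2 ≤ m
    · refine Or.inr (Or.inr (Or.inr (Or.inr (Or.inr (Or.inr (Or.inr (Or.inr (Or.inr (Or.inr (Or.inl ⟨hp, by omega, by omega, ?_⟩))))))))))
      have en : nx (4 * m + 2) i = i + 1 := nx_succ (by omega)
      have e1 := W2_1_1 (m := m) (i := i) hm (by omega) (by omega) (by omega)
      have e2 := W2_0_2 (m := m) (i := (i + 1)) hm (by omega) (by omega) (by omega)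
      rw [BS_2]
      rw [en]
      omega
    by_cases c2 : i / 2 + 1 ≤ m
    · refine Or.inr (Or.inr (Or.inr (Or.inr (Or.inr (Or.inr (Or.inr (Or.inr (Or.inr (Or.inr (Or.inr (Or.inl ⟨hp, by omega, by omega, ?_⟩)))))))))))
      have en : nx (4 * m + 2) i = i + 1 := nx_succ (by omega)
      have e1 := W2_1_1 (m := m) (i := i) hm (by omega) (by omega) (by omega)
      have e2 := W2_0_3 (m := m) (i := (i + 1)) hm (by omega) (by omega) (by omega)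
      rw [BS_2]
      rw [en]
      omega
    by_cases c3 : i / 2 ≤ m
    · refine Or.inr (Or.inr (Or.inr (Or.inr (Or.inr (Or.inr (Or.inr (Or.inr (Or.inr (Or.inr (Or.inr (Or.inr (Or.inl ⟨hp, by omega, by omega, ?_⟩))))))))))))
      have en : nx (4 * m + 2) i = i + 1 := nx_succ (by omega)
      have e1 := W2_1_2 (m := m) (i := i) hm (by omega) (by omega) (by omega)
      have e2 := W2_0_3 (m := m) (i := (i + 1)) hm (by omega) (by omega) (by omega)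
      rw [BS_2]
      rw [en]
      omega
    by_cases c4 : i / 2 ≤ m + 1
    · refine Or.inr (Or.inr (Or.inr (Or.inr (Or.inr (Or.inr (Or.inr (Or.inr (Or.inr (Or.inr (Or.inr (Or.inr (Or.inr (Or.inl ⟨hp, by omega, by omega, ?_⟩)))))))))))))
      have en : nx (4 * m + 2) i = i + 1 := nx_succ (by omega)
      have e1 := W2_1_3 (m := m) (i := i) hm (by omega) (by omega) (by omega)
      have e2 := W2_0_3 (m := m) (i := (i + 1)) hm (by omega) (by omega) (by omega)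
      rw [BS_2]
      rw [en]
      omega
    by_cases c5 : i / 2 + 3 ≤ 2 * m
    · refine Or.inr (Or.inr (Or.inr (Or.inr (Or.inr (Or.inr (Or.inr (Or.inr (Or.inr (Or.inr (Or.inr (Or.inr (Or.inr (Or.inr (Or.inl ⟨hp, by omega, by omega, ?_⟩))))))))))))))
      have en : nx (4 * m + 2) i = i + 1 := nx_succ (by omega)
      have e1 := W2_1_4 (m := m) (i := i) hm (by omega) (by omega) (by omega)
      have e2 := W2_0_3 (m := m) (i := (i + 1)) hm (by omega) (by omega) (by omega)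
      rw [BS_2]
      rw [en]
      omega
    by_cases c6 : i / 2 + 2 ≤ 2 * m
    · refine Or.inr (Or.inr (Or.inr (Or.inr (Or.inr (Or.inr (Or.inr (Or.inr (Or.inr (Or.inr (Or.inr (Or.inr (Or.inr (Or.inr (Or.inr (Or.inl ⟨hp, by omega, by omega, ?_⟩)))))))))))))))
      have en : nx (4 * m + 2) i = i + 1 := nx_succ (by omega)
      have e1 := W2_1_4 (m := m) (i := i) hm (by omega) (by omega) (by omega)
      have e2 := W2_0_4 (m := m) (i := (i + 1)) hm (by omega) (by omega) (by omega)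
      rw [BS_2]
      rw [en]
      omega
    by_cases c7 : i / 2 + 1 ≤ 2 * m
    · refine Or.inr (Or.inr (Or.inr (Or.inr (Or.inr (Or.inr (Or.inr (Or.inr (Or.inr (Or.inr (Or.inr (Or.inr (Or.inr (Or.inr (Or.inr (Or.inr (Or.inl ⟨hp, by omega, by omega, ?_⟩))))))))))))))))
      have en : nx (4 * m + 2) i = i + 1 := nx_succ (by omega)
      have e1 := W2_1_5 (m := m) (i := i) hm (by omega) (by omega)
      have e2 := W2_0_5 (m := m) (i := (i + 1)) hm (by omega) (by omega)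
      rw [BS_2]
      rw [en]
      omega
    refine Or.inr (Or.inr (Or.inr (Or.inr (Or.inr (Or.inr (Or.inr (Or.inr (Or.inr (Or.inr (Or.inr (Or.inr (Or.inr (Or.inr (Or.inr (Or.inr (Or.inr (⟨hp, by omega, by omega, ?_⟩)))))))))))))))))
    have en : nx (4 * m + 2) i = 0 := nx_last (by omega)
    have e1 := W2_1_5 (m := m) (i := i) hm (by omega) (by omega)
    have e2 := W2_0_0 (m := m) (i := 0) hm (by omega) (by omega)
    rw [BS_2]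
    rw [en]
    omega

theorem PB3 {m i : ℕ} (hm : 4 ≤ m) (hi : i < 4 * m + 2) :
    (i % 2 = 0 ∧ 0 ≤ i / 2 ∧ i / 2 ≤ 0 ∧ BS m 3 i = 6 * (m : ℤ) + ((i / 2 : ℕ) : ℤ) + 2) ∨
    (i % 2 = 0 ∧ 1 ≤ i / 2 ∧ i / 2 + 2 ≤ m ∧ BS m 3 i = 6 * (m : ℤ) + 2 * ((i / 2 : ℕ) : ℤ) + 3) ∨
    (i % 2 = 0 ∧ m ≤ i / 2 + 1 ∧ i / 2 + 1 ≤ m ∧ BS m 3 i = 5 * (m : ℤ) + ((i / 2 : ℕ) : ℤ) - 2) ∨
    (i % 2 = 0 ∧ m ≤ i / 2 ∧ i / 2 ≤ m ∧ BS m 3 i = 4 * (m : ℤ) + 2 * ((i / 2 : ℕ) : ℤ) + 1) ∨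
    (i % 2 = 0 ∧ m + 1 ≤ i / 2 ∧ i / 2 + 2 ≤ 2 * m ∧ BS m 3 i = 4 * (m : ℤ) + 2 * ((i / 2 : ℕ) : ℤ) + 2) ∨
    (i % 2 = 0 ∧ 2 * m ≤ i / 2 + 1 ∧ i / 2 + 1 ≤ 2 * m ∧ BS m 3 i = 4 * (m : ℤ) + ((i / 2 : ℕ) : ℤ) + 4) ∨
    (i % 2 = 0 ∧ 2 * m ≤ i / 2 ∧ i / 2 ≤ 2 * m ∧ BS m 3 i = 6 * (m : ℤ) + ((i / 2 : ℕ) : ℤ) + 2) ∨
    (i % 2 = 1 ∧ 0 ≤ i / 2 ∧ i / 2 + 3 ≤ m ∧ BS m 3 i = 4 * (m : ℤ) + 2 * ((i / 2 : ℕ) : ℤ) + 1) ∨
    (i % 2 = 1 ∧ m ≤ i / 2 + 2 ∧ i / 2 + 1 ≤ m ∧ BS m 3 i = 4 * (m : ℤ) + 2 * ((i / 2 : ℕ) : ℤ) + 2) ∨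
    (i % 2 = 1 ∧ m ≤ i / 2 ∧ i / 2 ≤ m ∧ BS m 3 i = 5 * (m : ℤ) + ((i / 2 : ℕ) : ℤ) - 1) ∨
    (i % 2 = 1 ∧ m + 1 ≤ i / 2 ∧ i / 2 ≤ m + 1 ∧ BS m 3 i = 7 * (m : ℤ) + ((i / 2 : ℕ) : ℤ) + 3) ∨
    (i % 2 = 1 ∧ m + 2 ≤ i / 2 ∧ i / 2 + 2 ≤ 2 * m ∧ BS m 3 i = 2 * (m : ℤ) + 2 * ((i / 2 : ℕ) : ℤ)) ∨
    (i % 2 = 1 ∧ 2 * m ≤ i / 2 + 1 ∧ i / 2 + 1 ≤ 2 * m ∧ BS m 3 i = 4 * (m : ℤ) + 2 * ((i / 2 : ℕ) : ℤ) + 2) ∨
    (i % 2 = 1 ∧ 2 * m ≤ i / 2 ∧ i / 2 ≤ 2 * m ∧ BS m 3 i = 6 * (m : ℤ) + ((i / 2 : ℕ) : ℤ) + 3) := by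
  rcases Nat.mod_two_eq_zero_or_one i with hp | hp
  · by_cases c0 : i / 2 ≤ 0
    · refine Or.inl ⟨hp, by omega, by omega, ?_⟩
      have e1 := W2_0_0 (m := m) (i := i) hm (by omega) (by omega)
      have e2 := X0_0_0 (m := m) (i := i) (by omega) (by omega) (by omega)
      rw [BS_3]
      omega
    by_cases c1 : i / 2 + 2 ≤ m
    · refine Or.inr (Or.inl ⟨hp, by omega, by omega, ?_⟩)
      have e1 := W2_0_1 (m := m) (i := i) hm (by omega) (by omega) (by omega)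
      have e2 := X0_0_0 (m := m) (i := i) (by omega) (by omega) (by omega)
      rw [BS_3]
      omega
    by_cases c2 : i / 2 + 1 ≤ m
    · refine Or.inr (Or.inr (Or.inl ⟨hp, by omega, by omega, ?_⟩))
      have e1 := W2_0_2 (m := m) (i := i) hm (by omega) (by omega) (by omega)
      have e2 := X0_0_0 (m := m) (i := i) (by omega) (by omega) (by omega)
      rw [BS_3]
      omega
    by_cases c3 : i / 2 ≤ m
    · refine Or.inr (Or.inr (Or.inr (Or.inl ⟨hp, by omega, by omega, ?_⟩)))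
      have e1 := W2_0_3 (m := m) (i := i) hm (by omega) (by omega) (by omega)
      have e2 := X0_0_0 (m := m) (i := i) (by omega) (by omega) (by omega)
      rw [BS_3]
      omega
    by_cases c4 : i / 2 + 2 ≤ 2 * m
    · refine Or.inr (Or.inr (Or.inr (Or.inr (Or.inl ⟨hp, by omega, by omega, ?_⟩))))
      have e1 := W2_0_3 (m := m) (i := i) hm (by omega) (by omega) (by omega)
      have e2 := X0_0_1 (m := m) (i := i) (by omega) (by omega) (by omega)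
      rw [BS_3]
      omega
    by_cases c5 : i / 2 + 1 ≤ 2 * m
    · refine Or.inr (Or.inr (Or.inr (Or.inr (Or.inr (Or.inl ⟨hp, by omega, by omega, ?_⟩)))))
      have e1 := W2_0_4 (m := m) (i := i) hm (by omega) (by omega) (by omega)
      have e2 := X0_0_1 (m := m) (i := i) (by omega) (by omega) (by omega)
      rw [BS_3]
      omega
    refine Or.inr (Or.inr (Or.inr (Or.inr (Or.inr (Or.inr (Or.inl ⟨hp, by omega, by omega, ?_⟩))))))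
    have e1 := W2_0_5 (m := m) (i := i) hm (by omega) (by omega)
    have e2 := X0_0_1 (m := m) (i := i) (by omega) (by omega) (by omega)
    rw [BS_3]
    omega
  · by_cases c0 : i / 2 + 3 ≤ m
    · refine Or.inr (Or.inr (Or.inr (Or.inr (Or.inr (Or.inr (Or.inr (Or.inl ⟨hp, by omega, by omega, ?_⟩)))))))
      have e1 := W2_1_0 (m := m) (i := i) hm (by omega) (by omega)
      have e2 := X0_1_0 (m := m) (i := i) (by omega) (by omega) (by omega)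
      rw [BS_3]
      omega
    by_cases c1 : i / 2 + 1 ≤ m
    · refine Or.inr (Or.inr (Or.inr (Or.inr (Or.inr (Or.inr (Or.inr (Or.inr (Or.inl ⟨hp, by omega, by omega, ?_⟩))))))))
      have e1 := W2_1_1 (m := m) (i := i) hm (by omega) (by omega) (by omega)
      have e2 := X0_1_0 (m := m) (i := i) (by omega) (by omega) (by omega)
      rw [BS_3]
      omega
    by_cases c2 : i / 2 ≤ m
    · refine Or.inr (Or.inr (Or.inr (Or.inr (Or.inr (Or.inr (Or.inr (Or.inr (Or.inr (Or.inl ⟨hp, by omega, by omega, ?_⟩)))))))))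
      have e1 := W2_1_2 (m := m) (i := i) hm (by omega) (by omega) (by omega)
      have e2 := X0_1_0 (m := m) (i := i) (by omega) (by omega) (by omega)
      rw [BS_3]
      omega
    by_cases c3 : i / 2 ≤ m + 1
    · refine Or.inr (Or.inr (Or.inr (Or.inr (Or.inr (Or.inr (Or.inr (Or.inr (Or.inr (Or.inr (Or.inl ⟨hp, by omega, by omega, ?_⟩))))))))))
      have e1 := W2_1_3 (m := m) (i := i) hm (by omega) (by omega) (by omega)
      have e2 := X0_1_0 (m := m) (i := i) (by omega) (by omega) (by omega)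
      rw [BS_3]
      omega
    by_cases c4 : i / 2 + 2 ≤ 2 * m
    · refine Or.inr (Or.inr (Or.inr (Or.inr (Or.inr (Or.inr (Or.inr (Or.inr (Or.inr (Or.inr (Or.inr (Or.inl ⟨hp, by omega, by omega, ?_⟩)))))))))))
      have e1 := W2_1_4 (m := m) (i := i) hm (by omega) (by omega) (by omega)
      have e2 := X0_1_0 (m := m) (i := i) (by omega) (by omega) (by omega)
      rw [BS_3]
      omega
    by_cases c5 : i / 2 + 1 ≤ 2 * m
    · refine Or.inr (Or.inr (Or.inr (Or.inr (Or.inr (Or.inr (Or.inr (Or.inr (Or.inr (Or.inr (Or.inr (Or.inr (Or.inl ⟨hp, by omega, by omega, ?_⟩))))))))))))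
      have e1 := W2_1_5 (m := m) (i := i) hm (by omega) (by omega)
      have e2 := X0_1_0 (m := m) (i := i) (by omega) (by omega) (by omega)
      rw [BS_3]
      omega
    refine Or.inr (Or.inr (Or.inr (Or.inr (Or.inr (Or.inr (Or.inr (Or.inr (Or.inr (Or.inr (Or.inr (Or.inr (Or.inr (⟨hp, by omega, by omega, ?_⟩)))))))))))))
    have e1 := W2_1_5 (m := m) (i := i) hm (by omega) (by omega)
    have e2 := X0_1_1 (m := m) (i := i) (by omega) (by omega) (by omega)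
    rw [BS_3]
    omega

theorem PB4 {m i : ℕ} (hm : 4 ≤ m) (hi : i < 4 * m + 2) :
    (i % 2 = 0 ∧ 0 ≤ i / 2 ∧ i / 2 ≤ m ∧ BS m 4 i = 2 * ((i / 2 : ℕ) : ℤ)) ∨
    (i % 2 = 0 ∧ m + 1 ≤ i / 2 ∧ i / 2 + 1 ≤ 2 * m ∧ BS m 4 i = 2 * ((i / 2 : ℕ) : ℤ) + 1) ∨
    (i % 2 = 0 ∧ 2 * m ≤ i / 2 ∧ i / 2 ≤ 2 * m ∧ BS m 4 i = 2 * (m : ℤ) + ((i / 2 : ℕ) : ℤ) + 2) ∨
    (i % 2 = 1 ∧ 0 ≤ i / 2 ∧ i / 2 + 1 ≤ m ∧ BS m 4 i = 2 * ((i / 2 : ℕ) : ℤ) + 1) ∨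
    (i % 2 = 1 ∧ m ≤ i / 2 ∧ i / 2 + 1 ≤ 2 * m ∧ BS m 4 i = 2 * ((i / 2 : ℕ) : ℤ) + 2) ∨
    (i % 2 = 1 ∧ 2 * m ≤ i / 2 ∧ i / 2 ≤ 2 * m ∧ BS m 4 i = 2 * (m : ℤ) + 1) := by
  rcases Nat.mod_two_eq_zero_or_one i with hp | hp
  · by_cases c0 : i / 2 ≤ m
    · refine Or.inl ⟨hp, by omega, by omega, ?_⟩
      have en : nx (4 * m + 2) i = i + 1 := nx_succ (by omega)
      have e1 := X0_0_0 (m := m) (i := i) (by omega) (by omega) (by omega)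
      have e2 := X0_1_0 (m := m) (i := (i + 1)) (by omega) (by omega) (by omega)
      rw [BS_4]
      rw [en]
      omega
    by_cases c1 : i / 2 + 1 ≤ 2 * m
    · refine Or.inr (Or.inl ⟨hp, by omega, by omega, ?_⟩)
      have en : nx (4 * m + 2) i = i + 1 := nx_succ (by omega)
      have e1 := X0_0_1 (m := m) (i := i) (by omega) (by omega) (by omega)
      have e2 := X0_1_0 (m := m) (i := (i + 1)) (by omega) (by omega) (by omega)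
      rw [BS_4]
      rw [en]
      omega
    refine Or.inr (Or.inr (Or.inl ⟨hp, by omega, by omega, ?_⟩))
    have en : nx (4 * m + 2) i = i + 1 := nx_succ (by omega)
    have e1 := X0_0_1 (m := m) (i := i) (by omega) (by omega) (by omega)
    have e2 := X0_1_1 (m := m) (i := (i + 1)) (by omega) (by omega) (by omega)
    rw [BS_4]
    rw [en]
    omega
  · by_cases c0 : i / 2 + 1 ≤ m
    · refine Or.inr (Or.inr (Or.inr (Or.inl ⟨hp, by omega, by omega, ?_⟩)))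
      have en : nx (4 * m + 2) i = i + 1 := nx_succ (by omega)
      have e1 := X0_1_0 (m := m) (i := i) (by omega) (by omega) (by omega)
      have e2 := X0_0_0 (m := m) (i := (i + 1)) (by omega) (by omega) (by omega)
      rw [BS_4]
      rw [en]
      omega
    by_cases c1 : i / 2 + 1 ≤ 2 * m
    · refine Or.inr (Or.inr (Or.inr (Or.inr (Or.inl ⟨hp, by omega, by omega, ?_⟩))))
      have en : nx (4 * m + 2) i = i + 1 := nx_succ (by omega)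
      have e1 := X0_1_0 (m := m) (i := i) (by omega) (by omega) (by omega)
      have e2 := X0_0_1 (m := m) (i := (i + 1)) (by omega) (by omega) (by omega)
      rw [BS_4]
      rw [en]
      omega
    refine Or.inr (Or.inr (Or.inr (Or.inr (Or.inr (⟨hp, by omega, by omega, ?_⟩)))))
    have en : nx (4 * m + 2) i = 0 := nx_last (by omega)
    have e1 := X0_1_1 (m := m) (i := i) (by omega) (by omega) (by omega)
    have e2 := X0_0_0 (m := m) (i := 0) (by omega) (by omega) (by omega)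
    rw [BS_4]
    rw [en]
    omega

end Pool.Agent.Q169.CY
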