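import Mathlib

/-!
# Alpha-labelings of `C_k × P_N`: the edges, and a criterion
-/

set_option autoImplicit false
set_option linter.unusedSimpArgs false

open SimpleGraph

namespace Pool.Agent.Q169.CY

/-- An alpha-labeling of a graph with `q` edges: an injective map `f` from the vertices to `{0, ..., q}` such that the
edge values `|f a - f b|` are exactly `1, ..., q`, and a threshold `t` such that every edge has one end with label
`≤ t` and one end with label `> t`. -/
def HasAlpha {V : Type} (G : SimpleGraph V) : Prop :=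
  ∃ (f : V → ℕ) (t : ℤ), Function.Injective f ∧ (∀ v, f v ≤ G.edgeSet.ncard) ∧
    {d : ℤ | ∃ a b, G.Adj a b ∧ d = |(f a : ℤ) - f b|} = Set.Icc 1 (G.edgeSet.ncard : ℤ) ∧
    ∀ a b, G.Adj a b → ((f a : ℤ) ≤ t ∧ t < f b) ∨ ((f b : ℤ) ≤ t ∧ t < f a)

/-- the next vertex of the cycle -/
def nx (k i : ℕ) : ℕ := if i + 1 < k then i + 1 else 0

theorem nx_lt {k i : ℕ} (h : i < k) : nx k i < k := by
  unfold nx
  split_ifs <;> omega

theorem mod_two_mul {k a : ℕ} (h : a < 2 * k) : a % k = if a < k then a else a - k := by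
  split_ifs with h1
  · exact Nat.mod_eq_of_lt h1
  · rw [Nat.mod_eq_sub_mod (by omega), Nat.mod_eq_of_lt (by omega)]

theorem cycle_adj {k : ℕ} (hk : 3 ≤ k) (u v : Fin k) :
    (cycleGraph k).Adj u v ↔ nx k u = v ∨ nx k v = u := by
  rw [cycleGraph_adj']
  have h1 : (u - v).val = (k - v + u) % k := by
    rw [Fin.sub_def]
  have h2 : (v - u).val = (k - u + v) % k := by
    rw [Fin.sub_def]
  have hu := u.2
  have hv := v.2
  rw [h1, h2, mod_two_mul (by omega), mod_two_mul (by omega)]
  unfold nx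
  split_ifs <;> omega

/-- the type of the edges -/
abbrev Ed (k N : ℕ) : Type := (Fin N × Fin k) ⊕ (Fin (N - 1) × Fin k)

/-- the edges of `C_k × P_N` -/
def edge (k N : ℕ) : Ed k N → Sym2 (Fin k × Fin N)
  | Sum.inl (j, i) => s((i, j), (⟨nx k i, nx_lt i.2⟩, j))
  | Sum.inr (j, i) => s((i, ⟨j, by omega⟩), (i, ⟨j + 1, by omega⟩))

theorem edge_injective {k : ℕ} (hk : 3 ≤ k) (N : ℕ) : Function.Injective (edge k N) := by
  rintro (⟨j, i⟩ | ⟨j, i⟩) (⟨j', i'⟩ | ⟨j', i'⟩) h
  · simp only [edge, Sym2.eq_iff, Prod.mk.injEq, Fin.ext_iff] at h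
    simp only [Sum.inl.injEq, Prod.mk.injEq, Fin.ext_iff]
    have h1 := i.2
    have h2 := i'.2
    unfold nx at h
    split_ifs at h <;> omega
  · simp only [edge, Sym2.eq_iff, Prod.mk.injEq, Fin.ext_iff] at h
    omega
  · simp only [edge, Sym2.eq_iff, Prod.mk.injEq, Fin.ext_iff] at h
    omega
  · simp only [edge, Sym2.eq_iff, Prod.mk.injEq, Fin.ext_iff] at h
    simp only [Sum.inr.injEq, Prod.mk.injEq, Fin.ext_iff]
    omega

theorem adj_edge {k N : ℕ} (hk : 3 ≤ k) {a b : Fin k × Fin N} (h : (cycleGraph k □ pathGraph N).Adj a b) :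
    ∃ x, edge k N x = s(a, b) := by
  obtain ⟨i, j⟩ := a
  obtain ⟨i', j'⟩ := b
  simp only [boxProd_adj, cycle_adj hk, pathGraph_adj] at h
  rcases h with ⟨h1 | h1, h3⟩ | ⟨h1 | h1, h2⟩
  · subst h3
    refine ⟨Sum.inl (j, i), ?_⟩
    simp only [edge, Sym2.eq_iff, Prod.mk.injEq, Fin.ext_iff, true_and, and_true]
    omega
  · subst h3
    refine ⟨Sum.inl (j, i'), ?_⟩
    simp only [edge, Sym2.eq_iff, Prod.mk.injEq, Fin.ext_iff, true_and, and_true]
    omega
  · subst h2
    refine ⟨Sum.inr (⟨j, by omega⟩, i), ?_⟩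
    simp only [edge, Sym2.eq_iff, Prod.mk.injEq, Fin.ext_iff, true_and, and_true]
    omega
  · subst h2
    refine ⟨Sum.inr (⟨j', by omega⟩, i), ?_⟩
    simp only [edge, Sym2.eq_iff, Prod.mk.injEq, Fin.ext_iff, true_and, and_true]
    omega

theorem edge_mem {k : ℕ} (hk : 3 ≤ k) (N : ℕ) (x : Ed k N) : edge k N x ∈ (cycleGraph k □ pathGraph N).edgeSet := by
  rcases x with ⟨j, i⟩ | ⟨j, i⟩
  · simp only [edge, mem_edgeSet, boxProd_adj, cycle_adj hk, and_true]
    exact Or.inl (Or.inl trivial)
  · simp only [edge, mem_edgeSet, boxProd_adj, pathGraph_adj, true_or, and_true]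
    exact Or.inr trivial

theorem range_edge {k : ℕ} (hk : 3 ≤ k) (N : ℕ) : Set.range (edge k N) = (cycleGraph k □ pathGraph N).edgeSet := by
  ext e
  constructor
  · rintro ⟨x, rfl⟩
    exact edge_mem hk N x
  · induction e using Sym2.ind with
    | _ a b => exact fun h => adj_edge hk h

theorem ncard_edge {k : ℕ} (hk : 3 ≤ k) (N : ℕ) :
    (cycleGraph k □ pathGraph N).edgeSet.ncard = N * k + (N - 1) * k := by
  rw [← range_edge hk, ← Set.image_univ, Set.ncard_image_of_injective _ (edge_injective hk N), Set.ncard_univ]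
  simp [Nat.card_eq_fintype_card]

/-- The distances of the labels of `C_k × P_N` to the threshold: the vertices `(i, j)` with `i + j` even have the labels
`a - y j i`, the others the labels `a + 1 + y j i`.  The value of an edge is `1` plus the sum of the distances of its ends. -/
def es (k : ℕ) (y : ℕ → ℕ → ℤ) (t j i : ℕ) : ℤ := if t = 0 then y j i + y j (nx k i) else y j i + y (j + 1) i

/-- the conditions on the distances -/
structure Off (k N : ℕ) (y : ℕ → ℕ → ℤ) (a b : ℤ) : Prop where
  range : ∀ j i, j < N → i < k → 0 ≤ y j i ∧ y j i ≤ (if (i + j) % 2 = 0 then a else b)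
  vinj : ∀ j i j' i', j < N → i < k → j' < N → i' < k → (i + j) % 2 = (i' + j') % 2 → y j i = y j' i' → j = j' ∧ i = i'
  einj : ∀ t j i t' j' i', t < 2 → j + t < N → i < k → t' < 2 → j' + t' < N → i' < k →
    es k y t j i = es k y t' j' i' → t = t' ∧ j = j' ∧ i = i'

/-- the labels -/
def lab (y : ℕ → ℕ → ℤ) (a : ℤ) (j i : ℕ) : ℤ := if (i + j) % 2 = 0 then a - y j i else a + 1 + y j i

theorem nx_parity {k i : ℕ} (hk : k % 2 = 0) (h : i < k) : (nx k i) % 2 ≠ i % 2 := by
  unfold nx
  split_ifs <;> omega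

theorem Off.alpha {k N : ℕ} {y : ℕ → ℕ → ℤ} {a b : ℤ} (h : Off k N y a b) (hk : 3 ≤ k) (hk2 : k % 2 = 0)
    (hN : 1 ≤ N) (hq : a + b + 1 = ((N * k + (N - 1) * k : ℕ) : ℤ)) : HasAlpha (cycleGraph k □ pathGraph N) := by
  have hr : ∀ v : Fin k × Fin N, 0 ≤ lab y a v.2 v.1 ∧ lab y a v.2 v.1 ≤ ((N * k + (N - 1) * k : ℕ) : ℤ) := by
    intro v
    have h1 := h.range v.2 v.1 v.2.2 v.1.2
    have ha := h.range 0 0 (by omega) (by omega)
    have hb := h.range 0 1 (by omega) (by omega)
    simp only [Nat.zero_add, Nat.add_zero, Nat.one_mod, Nat.zero_mod] at ha hb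
    unfold lab
    split_ifs at * <;> omega
  have hc : ∀ v : Fin k × Fin N, (((lab y a v.2 v.1).toNat : ℕ) : ℤ) = lab y a v.2 v.1 := fun v =>
    Int.toNat_of_nonneg (hr v).1
  -- the edge values
  have hkey : ∀ x : Ed k N, ∀ u v : Fin k × Fin N, edge k N x = s(u, v) →
      |lab y a u.2 u.1 - lab y a v.2 v.1| = 1 + (match x with
        | Sum.inl (j, i) => es k y 0 j i
        | Sum.inr (j, i) => es k y 1 j i) ∧
      ((lab y a u.2 u.1 ≤ a ∧ a < lab y a v.2 v.1) ∨ (lab y a v.2 v.1 ≤ a ∧ a < lab y a u.2 u.1)) := by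
    intro x u v hx
    have key : ∀ (j i j' i' : ℕ), (hj : j < N) → (hi : i < k) → (hj' : j' < N) → (hi' : i' < k) →
        (i + j) % 2 ≠ (i' + j') % 2 →
        |lab y a j i - lab y a j' i'| = 1 + (y j i + y j' i') ∧
        ((lab y a j i ≤ a ∧ a < lab y a j' i') ∨ (lab y a j' i' ≤ a ∧ a < lab y a j i)) := by
      intro j i j' i' hj hi hj' hi' hne
      have h1 := h.range j i hj hi
      have h2 := h.range j' i' hj' hi'
      unfold lab
      rcases Nat.mod_two_eq_zero_or_one (i + j) with e | e <;>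
        rcases Nat.mod_two_eq_zero_or_one (i' + j') with e' | e'
      · omega
      · simp only [e, e'] at *
        simp only [if_true, one_ne_zero, if_false] at *
        refine ⟨?_, by omega⟩
        rw [abs_of_nonpos (by omega)]
        omega
      · simp only [e, e'] at *
        simp only [if_true, one_ne_zero, if_false] at *
        refine ⟨?_, by omega⟩
        rw [abs_of_nonneg (by omega)]
        omega
      · omega
    rcases x with ⟨j, i⟩ | ⟨j, i⟩
    · have hp := nx_parity hk2 i.2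
      simp only [edge, Sym2.eq_iff] at hx
      rcases hx with ⟨h1, h2⟩ | ⟨h1, h2⟩
      · rw [← h1, ← h2]
        have := key j i j (nx k i) j.2 i.2 j.2 (nx_lt i.2) (by omega)
        simpa [es] using this
      · rw [← h1, ← h2]
        have := key j (nx k i) j i j.2 (nx_lt i.2) j.2 i.2 (by omega)
        simp only [es, if_true]
        rw [add_comm (y j i)]
        exact this
    · simp only [edge, Sym2.eq_iff] at hx
      rcases hx with ⟨h1, h2⟩ | ⟨h1, h2⟩
      · rw [← h1, ← h2]
        have := key j i (j + 1) i (by omega) i.2 (by omega) i.2 (by omega)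
        simpa [es] using this
      · rw [← h1, ← h2]
        have := key (j + 1) i j i (by omega) i.2 (by omega) i.2 (by omega)
        simp only [es, one_ne_zero, if_false]
        rw [add_comm (y (j : ℕ) (i : ℕ))]
        exact this
  have hcard := ncard_edge hk N
  refine ⟨fun v => (lab y a v.2 v.1).toNat, a, ?_, ?_, ?_, ?_⟩
  · intro v v' hvv
    have h1 : lab y a v.2 v.1 = lab y a v'.2 v'.1 := by
      rw [← hc v, ← hc v']
      exact_mod_cast hvv
    have r1 := h.range v.2 v.1 v.2.2 v.1.2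
    have r2 := h.range v'.2 v'.1 v'.2.2 v'.1.2
    have h2 : ((v.1 : ℕ) + v.2) % 2 = ((v'.1 : ℕ) + v'.2) % 2 ∧ y v.2 v.1 = y v'.2 v'.1 := by
      unfold lab at h1
      split_ifs at h1 r1 r2 <;> omega
    obtain ⟨h3, h4⟩ := h.vinj _ _ _ _ v.2.2 v.1.2 v'.2.2 v'.1.2 h2.1 h2.2
    exact Prod.ext (Fin.ext h4) (Fin.ext h3)
  · intro v
    rw [hcard]
    have := (hr v).2
    have h2 := hc v
    simp only
    omega
  · -- the values: an injective map from the edges to `{1, ..., q}` is onto
    rw [hcard]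
    let g : Ed k N → ℤ := fun x => 1 + (match x with
        | Sum.inl (j, i) => es k y 0 j i
        | Sum.inr (j, i) => es k y 1 j i)
    have hginj : Function.Injective g := by
      rintro (⟨j, i⟩ | ⟨j, i⟩) (⟨j', i'⟩ | ⟨j', i'⟩) hg
      · simp only [g, add_right_inj] at hg
        obtain ⟨-, h2, h3⟩ := h.einj 0 j i 0 j' i' (by omega) (by omega) i.2 (by omega) (by omega) i'.2 hg
        rw [Fin.ext h2, Fin.ext h3]
      · simp only [g, add_right_inj] at hg
        have := h.einj 0 j i 1 j' i' (by omega) (by omega) i.2 (by omega) (by omega) i'.2 hg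
        omega
      · simp only [g, add_right_inj] at hg
        have := h.einj 1 j i 0 j' i' (by omega) (by omega) i.2 (by omega) (by omega) i'.2 hg
        omega
      · simp only [g, add_right_inj] at hg
        obtain ⟨-, h2, h3⟩ := h.einj 1 j i 1 j' i' (by omega) (by omega) i.2 (by omega) (by omega) i'.2 hg
        rw [Fin.ext h2, Fin.ext h3]
    have hmem : ∀ x, g x ∈ Finset.Icc (1 : ℤ) ((N * k + (N - 1) * k : ℕ) : ℤ) := by
      intro x
      rw [Finset.mem_Icc]
      obtain ⟨⟨u, v⟩, huv⟩ := (edge k N x).exists_rep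
      have h1 := hkey x u v huv.symm
      have hu := hr u
      have hv := hr v
      simp only [g]
      rw [← h1.1]
      rcases h1.2 with ⟨h2, h3⟩ | ⟨h2, h3⟩
      · rw [abs_of_nonpos (by omega)]
        omega
      · rw [abs_of_nonneg (by omega)]
        omega
    have hsurj : ∀ d ∈ Finset.Icc (1 : ℤ) ((N * k + (N - 1) * k : ℕ) : ℤ), ∃ x, g x = d := by
      have himg : Finset.univ.image g = Finset.Icc (1 : ℤ) ((N * k + (N - 1) * k : ℕ) : ℤ) := by
        refine Finset.eq_of_subset_of_card_le ?_ ?_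
        · intro d hd
          obtain ⟨x, -, rfl⟩ := Finset.mem_image.1 hd
          exact hmem x
        · rw [Finset.card_image_of_injective _ hginj, Int.card_Icc]
          simp [Fintype.card_sum, Fintype.card_prod]
      intro d hd
      rw [← himg] at hd
      obtain ⟨x, -, hx⟩ := Finset.mem_image.1 hd
      exact ⟨x, hx⟩
    ext d
    simp only [Set.mem_ofPred_eq, Set.mem_Icc]
    constructor
    · rintro ⟨u, v, huv, rfl⟩
      obtain ⟨x, hx⟩ := adj_edge hk huv
      have h1 := (hkey x u v hx).1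
      have h2 := hmem x
      rw [Finset.mem_Icc] at h2
      simp only [g] at h2
      simp only [hc]
      rw [h1]
      exact h2
    · intro hd
      obtain ⟨x, hx⟩ := hsurj d (Finset.mem_Icc.2 hd)
      obtain ⟨⟨u, v⟩, huv⟩ := (edge k N x).exists_rep
      have h1 := (hkey x u v huv.symm).1
      refine ⟨u, v, ?_, ?_⟩
      · have := edge_mem hk N x
        rw [← huv] at this
        exact this
      · simp only [hc]
        rw [h1, ← hx]
  · intro u v huv
    obtain ⟨x, hx⟩ := adj_edge hk huv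
    have := (hkey x u v hx).2
    simp only [hc]
    exact this

end Pool.Agent.Q169.CY
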