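import Pool.Agent.Q169.CY.Step

/-!
# Alpha-labelings of `C_k × P_N`: the cases `k = 6, 10, 14, 22`, by evaluation
-/

set_option autoImplicit false
set_option linter.unusedSimpArgs false
set_option maxRecDepth 100000

namespace Pool.Agent.Q169.CY

/-- an entry of a list -/
def g (L : List ℕ) (i : ℕ) : ℕ := L.getD i 0

/-- the layers -/
def g3 (A B C : List ℕ) (j i : ℕ) : ℕ := if j = 0 then g A i else if j = 1 then g B i else g C i

/-- the check for three layers: `inv`, `iL`, `iH` are the inverses -/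
def chkB (k a b : ℕ) (A B C inv iL iH : List ℕ) : Bool :=
  (List.range 3).all fun j => (List.range k).all fun i =>
    decide (g3 A B C j i ≤ (if (i + j) % 2 = 0 then a else b)) &&
    (g (if (i + j) % 2 = 0 then iL else iH) (g3 A B C j i) == j * k + i) &&
    (g inv (g3 A B C j i + g3 A B C j (nx k i)) == 2 * j * k + i) &&
    (decide (2 ≤ j) || (g inv (g3 A B C j i + g3 A B C (j + 1) i) == (2 * j + 1) * k + i))

theorem off_of_chk {k a b : ℕ} {A B C inv iL iH : List ℕ} (hk : 0 < k) (h : chkB k a b A B C inv iL iH = true) :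
    Off k 3 (fun j i => ((g3 A B C j i : ℕ) : ℤ)) a b := by
  simp only [chkB, List.all_eq_true, List.mem_range, Bool.and_eq_true, Bool.or_eq_true, decide_eq_true_eq,
    beq_iff_eq] at h
  refine { range := ?_, vinj := ?_, einj := ?_ }
  · intro j i hj hi
    have h1 := (h j hj i hi).1.1.1
    refine ⟨by positivity, ?_⟩
    split_ifs at * <;> exact_mod_cast h1
  · intro j i j' i' hj hi hj' hi' hp he
    have h1 := (h j hj i hi).1.1.2
    have h2 := (h j' hj' i' hi').1.1.2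
    have he' : g3 A B C j i = g3 A B C j' i' := by exact_mod_cast he
    rw [hp, he', h2] at h1
    have h3 : j' = j := by
      have e1 : (j' * k + i') / k = j' := by
        rw [Nat.mul_comm, Nat.mul_add_div hk, Nat.div_eq_of_lt hi', Nat.add_zero]
      have e2 : (j * k + i) / k = j := by
        rw [Nat.mul_comm, Nat.mul_add_div hk, Nat.div_eq_of_lt hi, Nat.add_zero]
      rw [← e1, ← e2, h1]
    subst h3
    exact ⟨rfl, by omega⟩
  · have key : ∀ t j i, t < 2 → j + t < 3 → i < k → ∃ s : ℕ,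
        es k (fun j i => ((g3 A B C j i : ℕ) : ℤ)) t j i = (s : ℤ) ∧ g inv s = (2 * j + t) * k + i := by
      intro t j i ht hj hi
      have h1 := h j (by omega) i hi
      interval_cases t
      · refine ⟨g3 A B C j i + g3 A B C j (nx k i), by simp [es], ?_⟩
        rw [h1.1.2]
        ring
      · refine ⟨g3 A B C j i + g3 A B C (j + 1) i, by simp [es], ?_⟩
        rcases h1.2 with h2 | h2
        · omega
        · rw [h2]
    intro t j i t' j' i' ht hj hi ht' hj' hi' he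
    obtain ⟨s, h1, h2⟩ := key t j i ht hj hi
    obtain ⟨s', h1', h2'⟩ := key t' j' i' ht' hj' hi'
    rw [h1, h1'] at he
    have he' : s = s' := by exact_mod_cast he
    rw [he', h2'] at h2
    have h3 : 2 * j' + t' = 2 * j + t := by
      have e1 : ((2 * j' + t') * k + i') / k = 2 * j' + t' := by
        rw [Nat.mul_comm, Nat.mul_add_div hk, Nat.div_eq_of_lt hi', Nat.add_zero]
      have e2 : ((2 * j + t) * k + i) / k = 2 * j + t := by
        rw [Nat.mul_comm, Nat.mul_add_div hk, Nat.div_eq_of_lt hi, Nat.add_zero]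
      rw [← e1, ← e2, h2]
    rw [h3] at h2
    exact ⟨by omega, by omega, by omega⟩

/-- the sums of the new edges, as natural numbers -/
def nsN (k c : ℕ) (X Y Z : List ℕ) (e i : ℕ) : ℕ :=
  if e = 0 then g X i + (if i % 2 = 0 then c else 4 * k - c) + g Y i
  else if e = 1 then g Y i + g Y (nx k i)
  else if e = 2 then g Y i + g Z i
  else g Z i + g Z (nx k i)

/-- the check for two new layers -/
def chkS (k c : ℕ) (X Y Z inv iL iH : List ℕ) : Bool :=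
  ((List.range k).all fun i =>
    decide (g Y i < (if i % 2 = 0 then 4 * k - c else c)) && decide (g Z i < (if i % 2 = 0 then c else 4 * k - c)) &&
    (g (if i % 2 = 0 then iH else iL) (g Y i) == i) && (g (if i % 2 = 0 then iL else iH) (g Z i) == k + i)) &&
  ((List.range 4).all fun e => (List.range k).all fun i =>
    decide (nsN k c X Y Z e i < 4 * k) && (g inv (nsN k c X Y Z e i) == e * k + i))

theorem stp_of_chk {k c : ℕ} {X Y Z inv iL iH : List ℕ} (hk : 0 < k) (hc : c ≤ 4 * k)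
    (h : chkS k c X Y Z inv iL iH = true) :
    Stp k (fun i => (g X i : ℤ)) (fun i => (g Y i : ℤ)) (fun i => (g Z i : ℤ)) c := by
  simp only [chkS, List.all_eq_true, List.mem_range, Bool.and_eq_true, decide_eq_true_eq, beq_iff_eq] at h
  obtain ⟨h1, h2⟩ := h
  have hns : ∀ e i, ns k (fun i => (g X i : ℤ)) (fun i => (g Y i : ℤ)) (fun i => (g Z i : ℤ)) c e i =
      (nsN k c X Y Z e i : ℤ) := by
    intro e i
    unfold ns nsN
    split_ifs <;> push_cast <;> first | rfl | (rw [Nat.cast_sub hc]; push_cast; ring)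
  refine { ry := ?_, rz := ?_, yinj := ?_, zinj := ?_, yz := ?_, rs := ?_, sinj := ?_ }
  · intro i hi
    have h3 := (h1 i hi).1.1.1
    refine ⟨by positivity, ?_⟩
    split_ifs at * <;> omega
  · intro i hi
    have h3 := (h1 i hi).1.1.2
    refine ⟨by positivity, ?_⟩
    split_ifs at * <;> omega
  · intro i i' hi hi' hp he
    have h3 := (h1 i hi).1.2
    have h4 := (h1 i' hi').1.2
    have he' : g Y i = g Y i' := by exact_mod_cast he
    rw [hp, he', h4] at h3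
    exact h3.symm
  · intro i i' hi hi' hp he
    have h3 := (h1 i hi).2
    have h4 := (h1 i' hi').2
    have he' : g Z i = g Z i' := by exact_mod_cast he
    rw [hp, he', h4] at h3
    omega
  · intro i i' hi hi' hp he
    have h3 := (h1 i hi).1.2
    have h4 := (h1 i' hi').2
    have he' : g Y i = g Z i' := by exact_mod_cast he
    rcases Nat.mod_two_eq_zero_or_one i with e | e
    · have e' : i' % 2 = 1 := by omega
      rw [e, he'] at h3
      rw [e'] at h4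
      simp only [if_true, one_ne_zero, if_false] at h3 h4
      omega
    · have e' : i' % 2 = 0 := by omega
      rw [e, he'] at h3
      rw [e'] at h4
      simp only [if_true, one_ne_zero, if_false] at h3 h4
      omega
  · intro e i he hi
    rw [hns]
    exact_mod_cast (h2 e he i hi).1
  · intro e i e' i' he hi he' hi' h3
    rw [hns, hns] at h3
    have h4 : nsN k c X Y Z e i = nsN k c X Y Z e' i' := by exact_mod_cast h3
    have h5 := (h2 e he i hi).2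
    rw [h4, (h2 e' he' i' hi').2] at h5
    have h6 : e' = e := by
      have e1 : (e' * k + i') / k = e' := by
        rw [Nat.mul_comm, Nat.mul_add_div hk, Nat.div_eq_of_lt hi', Nat.add_zero]
      have e2 : (e * k + i) / k = e := by
        rw [Nat.mul_comm, Nat.mul_add_div hk, Nat.div_eq_of_lt hi, Nat.add_zero]
      rw [← e1, ← e2, h5]
    subst h6
    exact ⟨rfl, by omega⟩

theorem alpha_of_chk (k a b c s : ℕ) (A B X Y Z inv iL iH inv' jL jH : List ℕ) (hk : 3 ≤ k) (hk2 : k % 2 = 0)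
    (hab : a + b + 1 = 5 * k) (hc : c ≤ 4 * k) (hs : s < k) (hs2 : s % 2 = 0)
    (h1 : chkB k a b A B X inv iL iH = true) (h2 : chkS k c X Y Z inv' jL jH = true)
    (h3 : ((List.range k).all fun i => g Z (rot k s i) == g X i) = true) (n : ℕ) (hn : 1 ≤ n) :
    HasAlpha (SimpleGraph.cycleGraph k □ SimpleGraph.pathGraph (2 * n + 1)) := by
  simp only [List.all_eq_true, List.mem_range, beq_iff_eq] at h3
  refine all_layers hk hk2 (fun i => (g X i : ℤ)) (fun i => (g Y i : ℤ)) (fun i => (g Z i : ℤ)) c (by positivity)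
    (by exact_mod_cast hc) s hs hs2 (stp_of_chk (by omega) hc h2) ?_ ?_ n hn
  · intro i hi
    simp only [h3 i hi]
  · refine ⟨_, a, b, off_of_chk (by omega) h1, by exact_mod_cast hab, ?_⟩
    intro i hi
    simp [g3]

theorem alpha_1 (n : ℕ) (hn : 1 ≤ n) :
    HasAlpha (SimpleGraph.cycleGraph (4 * 1 + 2) □ SimpleGraph.pathGraph (2 * n + 1)) :=
  alpha_of_chk 6 13 16 12 4
    [13, 16, 6, 14, 4, 15]
    [11, 10, 3, 11, 4, 12]
    [0, 0, 1, 1, 2, 5]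
    [8, 7, 9, 8, 4, 6]
    [1, 1, 2, 5, 0, 0]
    [24, 25, 26, 27, 20, 29, 22, 28, 10, 8, 19, 18, 21, 13, 14, 15, 16, 23, 3, 4, 2, 12, 1, 17, 6, 9, 7, 11, 5, 0]
    [12, 14, 16, 0, 4, 0, 2, 0, 0, 0, 7, 9, 11, 0]
    [13, 15, 0, 8, 10, 17, 0, 0, 0, 0, 0, 6, 0, 0, 3, 5, 1]
    [22, 23, 18, 19, 16, 21, 17, 20, 13, 12, 10, 14, 9, 15, 11, 6, 7, 8, 4, 1, 0, 3, 2, 5]
    [10, 6, 8, 0, 0, 0, 5, 1, 3, 0, 0, 0]
    [11, 7, 0, 0, 4, 9, 0, 0, 0, 2, 0, 0]
    (by norm_num) (by norm_num) (by norm_num) (by norm_num) (by norm_num) (by norm_num)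
    (by decide +kernel) (by decide +kernel) (by decide +kernel) n hn

theorem alpha_2 (n : ℕ) (hn : 1 ≤ n) :
    HasAlpha (SimpleGraph.cycleGraph (4 * 2 + 2) □ SimpleGraph.pathGraph (2 * n + 1)) :=
  alpha_of_chk 10 26 23 20 8
    [21, 18, 23, 19, 24, 21, 25, 22, 26, 23]
    [15, 17, 10, 18, 6, 8, 13, 9, 14, 11]
    [0, 0, 1, 1, 2, 2, 3, 3, 4, 9]
    [14, 11, 15, 12, 16, 13, 7, 14, 8, 10]
    [1, 1, 2, 2, 3, 3, 4, 9, 0, 0]
    [40, 41, 42, 43, 44, 45, 46, 47, 34, 49, 35, 32, 37, 48, 24, 30, 36, 31, 38, 33, 39, 25, 26, 27, 23, 28, 29, 21, 22, 15, 14, 17, 20, 12, 19, 11, 10, 13, 16, 0, 18, 1, 2, 3, 9, 4, 5, 6, 7, 8]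
    [20, 22, 24, 26, 28, 0, 0, 0, 15, 17, 0, 19, 0, 0, 0, 0, 0, 11, 13, 0, 0, 0, 0, 2, 4, 6, 8]
    [21, 23, 25, 27, 0, 0, 14, 0, 0, 29, 12, 0, 0, 16, 18, 10, 0, 0, 1, 3, 0, 5, 7, 9]
    [38, 39, 30, 31, 32, 33, 34, 35, 28, 37, 29, 26, 21, 36, 23, 20, 25, 22, 18, 24, 15, 16, 17, 27, 19, 10, 11, 12, 13, 14, 6, 1, 8, 3, 0, 5, 2, 7, 4, 9]
    [18, 10, 12, 14, 16, 0, 0, 0, 0, 0, 9, 1, 3, 5, 7, 0, 0, 0, 0, 0]
    [19, 11, 13, 15, 0, 0, 0, 6, 8, 17, 0, 0, 0, 0, 0, 2, 4, 0, 0, 0]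
    (by norm_num) (by norm_num) (by norm_num) (by norm_num) (by norm_num) (by norm_num)
    (by decide +kernel) (by decide +kernel) (by decide +kernel) n hn

theorem alpha_3 (n : ℕ) (hn : 1 ≤ n) :
    HasAlpha (SimpleGraph.cycleGraph (4 * 3 + 2) □ SimpleGraph.pathGraph (2 * n + 1)) :=
  alpha_of_chk 14 34 35 28 12
    [27, 28, 28, 29, 30, 30, 31, 32, 32, 33, 33, 34, 34, 35]
    [15, 22, 16, 23, 24, 16, 18, 9, 19, 10, 25, 11, 14, 18]
    [0, 0, 1, 1, 2, 2, 3, 3, 4, 4, 5, 5, 6, 13]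
    [20, 15, 21, 16, 22, 17, 23, 18, 10, 19, 11, 20, 12, 14]
    [1, 1, 2, 2, 3, 3, 4, 4, 5, 5, 6, 13, 0, 0]
    [56, 57, 58, 59, 60, 61, 62, 63, 64, 65, 66, 67, 49, 69, 51, 42, 53, 44, 47, 68, 54, 48, 43, 50, 45, 39, 46, 34, 35, 36, 52, 55, 40, 41, 33, 37, 38, 28, 29, 30, 32, 21, 14, 23, 16, 25, 19, 31, 26, 20, 15, 22, 17, 27, 18, 0, 1, 2, 24, 3, 4, 5, 13, 6, 7, 8, 9, 10, 11, 12]
    [28, 30, 32, 34, 36, 38, 40, 0, 0, 21, 23, 25, 0, 0, 0, 0, 19, 0, 27, 0, 0, 0, 15, 17, 0, 0, 0, 0, 2, 0, 4, 6, 8, 10, 12]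
    [29, 31, 33, 35, 37, 39, 0, 0, 0, 0, 0, 0, 0, 41, 26, 14, 16, 0, 20, 22, 0, 0, 0, 0, 18, 24, 0, 0, 1, 3, 5, 0, 7, 9, 11, 13]
    [54, 55, 42, 43, 44, 45, 46, 47, 48, 49, 50, 51, 40, 53, 41, 36, 29, 38, 31, 52, 33, 28, 35, 30, 37, 32, 26, 34, 21, 22, 23, 24, 25, 39, 27, 14, 15, 16, 17, 18, 19, 20, 8, 1, 10, 3, 12, 5, 0, 7, 2, 9, 4, 11, 6, 13]
    [26, 14, 16, 18, 20, 22, 24, 0, 0, 0, 0, 0, 0, 0, 13, 1, 3, 5, 7, 9, 11, 0, 0, 0, 0, 0, 0, 0]
    [27, 15, 17, 19, 21, 23, 0, 0, 0, 0, 8, 10, 12, 25, 0, 0, 0, 0, 0, 0, 0, 2, 4, 6, 0, 0, 0, 0]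
    (by norm_num) (by norm_num) (by norm_num) (by norm_num) (by norm_num) (by norm_num)
    (by decide +kernel) (by decide +kernel) (by decide +kernel) n hn

theorem alpha_5 (n : ℕ) (hn : 1 ≤ n) :
    HasAlpha (SimpleGraph.cycleGraph (4 * 5 + 2) □ SimpleGraph.pathGraph (2 * n + 1)) :=
  alpha_of_chk 22 55 54 44 2
    [44, 45, 46, 46, 47, 47, 48, 48, 49, 49, 50, 50, 51, 51, 52, 52, 53, 53, 54, 54, 55, 33]
    [32, 29, 21, 25, 22, 26, 37, 18, 35, 30, 28, 36, 39, 21, 31, 28, 34, 15, 16, 27, 27, 24]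
    [0, 0, 1, 1, 2, 2, 3, 3, 4, 4, 5, 5, 6, 6, 7, 7, 8, 8, 9, 9, 10, 20]
    [31, 32, 32, 25, 33, 26, 24, 37, 25, 18, 36, 19, 37, 28, 16, 29, 17, 30, 30, 21, 27, 22]
    [10, 20, 0, 0, 1, 1, 2, 2, 3, 3, 4, 4, 5, 5, 6, 6, 7, 7, 8, 8, 9, 9]
    [88, 89, 90, 91, 92, 93, 94, 95, 96, 97, 98, 99, 100, 101, 102, 103, 104, 105, 106, 107, 109, 73, 68, 83, 70, 84, 69, 79, 71, 67, 108, 61, 66, 76, 75, 81, 85, 86, 80, 74, 72, 77, 82, 62, 87, 78, 46, 47, 48, 60, 45, 64, 57, 51, 63, 50, 65, 43, 53, 58, 56, 44, 59, 49, 54, 52, 29, 24, 39, 26, 40, 25, 35, 27, 23, 55, 22, 21, 32, 31, 37, 41, 42, 36, 30, 28, 33, 38, 20, 0, 34, 1, 2, 3, 4, 5, 6, 7, 8, 9, 10, 11, 12, 13, 14, 15, 16, 17, 18, 19]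
    [44, 46, 48, 50, 52, 54, 56, 58, 60, 62, 64, 0, 0, 0, 0, 39, 0, 0, 29, 0, 0, 35, 0, 0, 43, 25, 27, 41, 37, 23, 31, 0, 0, 0, 0, 0, 33, 0, 0, 0, 0, 0, 0, 0, 0, 0, 2, 4, 6, 8, 10, 12, 14, 16, 18, 20]
    [45, 47, 49, 51, 53, 55, 57, 59, 61, 63, 0, 0, 0, 0, 0, 0, 40, 0, 0, 0, 65, 24, 26, 0, 0, 0, 0, 42, 32, 0, 0, 36, 22, 21, 38, 30, 0, 28, 0, 34, 0, 0, 0, 0, 0, 1, 3, 5, 7, 9, 11, 13, 15, 17, 19]
    [68, 69, 70, 71, 72, 73, 74, 75, 76, 77, 78, 79, 80, 81, 82, 83, 84, 85, 86, 87, 67, 53, 58, 55, 60, 47, 50, 49, 52, 63, 66, 65, 46, 57, 48, 59, 64, 61, 62, 51, 54, 44, 56, 30, 35, 36, 37, 38, 41, 42, 27, 40, 45, 43, 31, 32, 33, 24, 25, 26, 39, 28, 29, 22, 23, 34, 9, 14, 11, 16, 3, 6, 5, 8, 19, 0, 1, 2, 13, 4, 15, 20, 17, 18, 7, 10, 21, 12]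
    [24, 26, 28, 30, 32, 34, 36, 38, 40, 42, 22, 0, 0, 0, 0, 0, 0, 0, 9, 11, 0, 19, 21, 0, 0, 3, 5, 0, 13, 15, 17, 0, 1, 0, 0, 0, 0, 7, 0, 0, 0, 0, 0, 0]
    [25, 27, 29, 31, 33, 35, 37, 39, 41, 43, 0, 0, 0, 0, 0, 0, 14, 16, 0, 0, 23, 0, 0, 0, 6, 8, 0, 20, 0, 0, 18, 0, 2, 4, 0, 0, 10, 12, 0, 0, 0, 0, 0, 0]
    (by norm_num) (by norm_num) (by norm_num) (by norm_num) (by norm_num) (by norm_num)
    (by decide +kernel) (by decide +kernel) (by decide +kernel) n hn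

end Pool.Agent.Q169.CY
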