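import Pool.Agent.Q169.CY.Core

/-!
# Alpha-labelings of `C_k × P_N`: inserting two layers
-/

set_option autoImplicit false
set_option linter.unusedSimpArgs false

namespace Pool.Agent.Q169.CY

/-- the rotation of the cycle by `s` -/
def rot (k s i : ℕ) : ℕ := if i + s < k then i + s else i + s - k

theorem Off.rotate {k N : ℕ} {y : ℕ → ℕ → ℤ} {a b : ℤ} (h : Off k N y a b) (s : ℕ) (hs : s < k)
    (hs2 : s % 2 = 0) (hk2 : k % 2 = 0) : Off k N (fun j i => y j (rot k s i)) a b := by
  have hlt : ∀ i, i < k → rot k s i < k := by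
    intro i hi
    unfold rot
    split_ifs <;> omega
  have hpar : ∀ i, i < k → (rot k s i) % 2 = i % 2 := by
    intro i hi
    unfold rot
    split_ifs <;> omega
  have hinj : ∀ i i', i < k → i' < k → rot k s i = rot k s i' → i = i' := by
    intro i i' hi hi' he
    unfold rot at he
    split_ifs at he <;> omega
  have hnx : ∀ i, i < k → rot k s (nx k i) = nx k (rot k s i) := by
    intro i hi
    unfold rot nx
    split_ifs <;> omega
  have hes : ∀ t j i, i < k → es k (fun j i => y j (rot k s i)) t j i = es k y t j (rot k s i) := by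
    intro t j i hi
    unfold es
    simp only [hnx i hi]
  refine { range := ?_, vinj := ?_, einj := ?_ }
  · intro j i hj hi
    have h1 := h.range j (rot k s i) hj (hlt i hi)
    have h2 := hpar i hi
    have h3 : (rot k s i + j) % 2 = (i + j) % 2 := by omega
    rw [h3] at h1
    exact h1
  · intro j i j' i' hj hi hj' hi' hp he
    have h2 := hpar i hi
    have h3 := hpar i' hi'
    obtain ⟨h4, h5⟩ := h.vinj j (rot k s i) j' (rot k s i') hj (hlt i hi) hj' (hlt i' hi') (by omega) he
    exact ⟨h4, hinj i i' hi hi' h5⟩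
  · intro t j i t' j' i' ht hj hi ht' hj' hi' he
    rw [hes t j i hi, hes t' j' i' hi'] at he
    obtain ⟨h4, h5, h6⟩ := h.einj t j (rot k s i) t' j' (rot k s i') ht hj (hlt i hi) ht' hj' (hlt i' hi') he
    exact ⟨h4, h5, hinj i i' hi hi' h6⟩

/-- the sums of the new edges -/
def ns (k : ℕ) (X Y Z : ℕ → ℤ) (c : ℤ) (e i : ℕ) : ℤ :=
  if e = 0 then X i + (if i % 2 = 0 then c else 4 * k - c) + Y i
  else if e = 1 then Y i + Y (nx k i)
  else if e = 2 then Y i + Z i
  else Z i + Z (nx k i)

/-- the conditions on two new layers `Y`, `Z` behind a layer `X` -/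
structure Stp (k : ℕ) (X Y Z : ℕ → ℤ) (c : ℤ) : Prop where
  ry : ∀ i, i < k → 0 ≤ Y i ∧ Y i < (if i % 2 = 0 then 4 * k - c else c)
  rz : ∀ i, i < k → 0 ≤ Z i ∧ Z i < (if i % 2 = 0 then c else 4 * k - c)
  yinj : ∀ i i', i < k → i' < k → i % 2 = i' % 2 → Y i = Y i' → i = i'
  zinj : ∀ i i', i < k → i' < k → i % 2 = i' % 2 → Z i = Z i' → i = i'
  yz : ∀ i i', i < k → i' < k → i % 2 ≠ i' % 2 → Y i ≠ Z i'
  rs : ∀ e i, e < 4 → i < k → ns k X Y Z c e i < 4 * k
  sinj : ∀ e i e' i', e < 4 → i < k → e' < 4 → i' < k → ns k X Y Z c e i = ns k X Y Z c e' i' → e = e' ∧ i = i'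

/-- the labeling with two more layers -/
def ext (k N : ℕ) (y : ℕ → ℕ → ℤ) (Y Z : ℕ → ℤ) (c : ℤ) (j i : ℕ) : ℤ :=
  if j < N then y j i + (if (i + j) % 2 = 0 then c else 4 * k - c) else if j = N then Y i else Z i

theorem Off.step {k N : ℕ} {y : ℕ → ℕ → ℤ} {a b : ℤ} (h : Off k N y a b) (hN : N % 2 = 1) (hk2 : k % 2 = 0)
    {X Y Z : ℕ → ℤ} {c : ℤ} (hX : ∀ i, i < k → y (N - 1) i = X i) (hc : 0 ≤ c) (hc' : c ≤ 4 * k)
    (s : Stp k X Y Z c) : Off k (N + 2) (ext k N y Y Z c) (a + c) (b + (4 * k - c)) := by
  have eold : ∀ j i, j < N → ext k N y Y Z c j i = y j i + (if (i + j) % 2 = 0 then c else 4 * k - c) := by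
    intro j i hj
    simp [ext, hj]
  have eY : ∀ i, ext k N y Y Z c N i = Y i := by
    intro i
    simp [ext]
  have eZ : ∀ i, ext k N y Y Z c (N + 1) i = Z i := by
    intro i
    simp [ext]
  -- the edges
  have edges : ∀ t j i, t < 2 → j + t < N + 2 → i < k →
      (j + t < N ∧ es k (ext k N y Y Z c) t j i = es k y t j i + 4 * k ∧ 0 ≤ es k y t j i) ∨
      (N ≤ j + t ∧ es k (ext k N y Y Z c) t j i = ns k X Y Z c (2 * j + t + 1 - 2 * N) i) := by
    intro t j i ht hj hi
    have hp := nx_parity hk2 hi
    have hl := nx_lt hi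
    rcases Nat.lt_or_ge (j + t) N with h1 | h1
    · left
      refine ⟨h1, ?_, ?_⟩
      · unfold es
        by_cases ht0 : t = 0
        · rw [if_pos ht0, if_pos ht0, eold j i (by omega), eold j (nx k i) (by omega)]
          rcases Nat.mod_two_eq_zero_or_one (i + j) with e | e
          · have e' : (nx k i + j) % 2 = 1 := by omega
            rw [e, e']
            simp only [if_true, one_ne_zero, if_false]
            ring
          · have e' : (nx k i + j) % 2 = 0 := by omega
            rw [e, e']
            simp only [if_true, one_ne_zero, if_false]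
            ring
        · rw [if_neg ht0, if_neg ht0, eold j i (by omega), eold (j + 1) i (by omega)]
          rcases Nat.mod_two_eq_zero_or_one (i + j) with e | e
          · have e' : (i + (j + 1)) % 2 = 1 := by omega
            rw [e, e']
            simp only [if_true, one_ne_zero, if_false]
            ring
          · have e' : (i + (j + 1)) % 2 = 0 := by omega
            rw [e, e']
            simp only [if_true, one_ne_zero, if_false]
            ring
      · unfold es
        have h2 := (h.range j i (by omega) hi).1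
        split_ifs with ht0
        · have h3 := (h.range j (nx k i) (by omega) hl).1
          omega
        · have h3 := (h.range (j + 1) i (by omega) hi).1
          omega
    · right
      refine ⟨h1, ?_⟩
      have hcase : (t = 1 ∧ j + 1 = N) ∨ (t = 0 ∧ j = N) ∨ (t = 1 ∧ j = N) ∨ (t = 0 ∧ j = N + 1) := by omega
      rcases hcase with ⟨rfl, h2⟩ | ⟨rfl, rfl⟩ | ⟨rfl, rfl⟩ | ⟨rfl, rfl⟩
      · have hj : j = N - 1 := by omega
        have e0 : 2 * j + 1 + 1 - 2 * N = 0 := by omega
        have e1 := eY i
        rw [e0]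
        unfold es ns
        simp only [one_ne_zero, if_false, if_true]
        rw [eold j i (by omega), h2, eY i]
        have h3 := hX i hi
        rw [← hj] at h3
        rw [h3]
        have e2 : (i + j) % 2 = i % 2 := by omega
        rw [e2]
      · have e0 : 2 * j + 0 + 1 - 2 * j = 1 := by omega
        rw [e0]
        unfold es ns
        simp only [one_ne_zero, if_false, if_true, eY]
      · have e0 : 2 * j + 1 + 1 - 2 * j = 2 := by omega
        rw [e0]
        unfold es ns
        simp only [one_ne_zero, if_false, if_true, eY, eZ]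
        norm_num
      · have e0 : 2 * (N + 1) + 0 + 1 - 2 * N = 3 := by omega
        rw [e0]
        unfold es ns
        simp only [if_true, eZ]
        norm_num
  refine { range := ?_, vinj := ?_, einj := ?_ }
  · intro j i hj hi
    have hcase : j < N ∨ j = N ∨ j = N + 1 := by omega
    rcases hcase with h1 | rfl | rfl
    · rw [eold j i h1]
      have h2 := h.range j i h1 hi
      split_ifs at * <;> omega
    · rw [eY]
      have h2 := s.ry i hi
      have h3 := h.range 0 0 (by omega) (by omega)
      have h4 := h.range 0 1 (by omega) (by omega)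
      simp only [Nat.zero_add, Nat.add_zero, Nat.one_mod, Nat.zero_mod, if_true, one_ne_zero, if_false] at h3 h4
      rcases Nat.mod_two_eq_zero_or_one i with e | e
      · have e' : (i + j) % 2 = 1 := by omega
        rw [e] at h2
        rw [e']
        simp only [if_true, one_ne_zero, if_false] at *
        omega
      · have e' : (i + j) % 2 = 0 := by omega
        rw [e] at h2
        rw [e']
        simp only [if_true, one_ne_zero, if_false] at *
        omega
    · rw [eZ]
      have h2 := s.rz i hi
      have h3 := h.range 0 0 (by omega) (by omega)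
      have h4 := h.range 0 1 (by omega) (by omega)
      simp only [Nat.zero_add, Nat.add_zero, Nat.one_mod, Nat.zero_mod, if_true, one_ne_zero, if_false] at h3 h4
      have e' : (i + (N + 1)) % 2 = i % 2 := by omega
      rw [e']
      split_ifs at * <;> omega
  · have sym : ∀ j i j' i', j < N + 2 → i < k → j' < N + 2 → i' < k → j ≤ j' → (i + j) % 2 = (i' + j') % 2 →
        ext k N y Y Z c j i = ext k N y Y Z c j' i' → j = j' ∧ i = i' := by
      intro j i j' i' hj hi hj' hi' hjj hp he
      have hcase : (j < N ∧ j' < N) ∨ (j < N ∧ j' = N) ∨ (j < N ∧ j' = N + 1) ∨ (j = N ∧ j' = N) ∨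
          (j = N ∧ j' = N + 1) ∨ (j = N + 1 ∧ j' = N + 1) := by omega
      rcases hcase with ⟨h1, h2⟩ | ⟨h1, rfl⟩ | ⟨h1, rfl⟩ | ⟨rfl, rfl⟩ | ⟨rfl, rfl⟩ | ⟨rfl, rfl⟩
      · rw [eold j i h1, eold j' i' h2, hp] at he
        exact h.vinj j i j' i' h1 hi h2 hi' hp (by omega)
      · rw [eold j i h1, eY] at he
        have h2 := s.ry i' hi'
        have h3 := (h.range j i h1 hi).1
        rcases Nat.mod_two_eq_zero_or_one i' with e | e
        · have e' : (i + j) % 2 = 1 := by omega
          rw [e] at h2
          rw [e'] at he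
          simp only [if_true, one_ne_zero, if_false] at *
          omega
        · have e' : (i + j) % 2 = 0 := by omega
          rw [e] at h2
          rw [e'] at he
          simp only [if_true, one_ne_zero, if_false] at *
          omega
      · rw [eold j i h1, eZ] at he
        have h2 := s.rz i' hi'
        have h3 := (h.range j i h1 hi).1
        have e' : (i + j) % 2 = i' % 2 := by omega
        rw [e'] at he
        split_ifs at * <;> omega
      · rw [eY, eY] at he
        exact ⟨rfl, s.yinj i i' hi hi' (by omega) he⟩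
      · rw [eY, eZ] at he
        exact absurd he (s.yz i i' hi hi' (by omega))
      · rw [eZ, eZ] at he
        exact ⟨rfl, s.zinj i i' hi hi' (by omega) he⟩
    intro j i j' i' hj hi hj' hi' hp he
    rcases Nat.le_total j j' with h1 | h1
    · exact sym j i j' i' hj hi hj' hi' h1 hp he
    · obtain ⟨h2, h3⟩ := sym j' i' j i hj' hi' hj hi h1 hp.symm he.symm
      exact ⟨h2.symm, h3.symm⟩
  · intro t j i t' j' i' ht hj hi ht' hj' hi' he
    rcases edges t j i ht hj hi with ⟨h1, h2, h3⟩ | ⟨h1, h2⟩ <;>
      rcases edges t' j' i' ht' hj' hi' with ⟨h1', h2', h3'⟩ | ⟨h1', h2'⟩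
    · rw [h2, h2'] at he
      exact h.einj t j i t' j' i' ht h1 hi ht' h1' hi' (by omega)
    · rw [h2, h2'] at he
      have := s.rs (2 * j' + t' + 1 - 2 * N) i' (by omega) hi'
      omega
    · rw [h2, h2'] at he
      have := s.rs (2 * j + t + 1 - 2 * N) i (by omega) hi
      omega
    · rw [h2, h2'] at he
      obtain ⟨h3, h4⟩ := s.sinj _ i _ i' (by omega) hi (by omega) hi' he
      exact ⟨by omega, by omega, h4⟩

/-- The induction over the number of the layers. -/
theorem all_layers {k : ℕ} (hk : 3 ≤ k) (hk2 : k % 2 = 0) (X Y Z : ℕ → ℤ) (c : ℤ) (hc : 0 ≤ c) (hc' : c ≤ 4 * k)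
    (s : ℕ) (hs : s < k) (hs2 : s % 2 = 0) (hst : Stp k X Y Z c) (hZ : ∀ i, i < k → Z (rot k s i) = X i)
    (base : ∃ (y : ℕ → ℕ → ℤ) (a b : ℤ), Off k 3 y a b ∧ a + b + 1 = 5 * k ∧ ∀ i, i < k → y 2 i = X i) (n : ℕ)
    (hn : 1 ≤ n) : HasAlpha (SimpleGraph.cycleGraph k □ SimpleGraph.pathGraph (2 * n + 1)) := by
  have main : ∃ (y : ℕ → ℕ → ℤ) (a b : ℤ), Off k (2 * n + 1) y a b ∧
      a + b + 1 = ((2 * n + 1) * k + 2 * n * k : ℤ) ∧ ∀ i, i < k → y (2 * n) i = X i := by
    induction n, hn using Nat.le_induction with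
    | base =>
      obtain ⟨y, a, b, h1, h2, h3⟩ := base
      refine ⟨y, a, b, h1, ?_, h3⟩
      rw [h2]
      push_cast
      ring
    | succ n hn ih =>
      obtain ⟨y, a, b, h1, h2, h3⟩ := ih
      have h4 := h1.step (by omega) hk2 (X := X) (Y := Y) (Z := Z) (c := c) (by simpa using h3) hc hc' hst
      have h5 := h4.rotate s hs hs2 hk2
      refine ⟨_, _, _, h5, ?_, ?_⟩
      · push_cast
        linarith
      · intro i hi
        have e : ∀ i, ext k (2 * n + 1) y Y Z c (2 * (n + 1)) i = Z i := by
          intro i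
          have h6 : ¬ (2 * (n + 1) < 2 * n + 1) := by omega
          have h7 : 2 * (n + 1) ≠ 2 * n + 1 := by omega
          simp [ext, h6, h7]
        rw [e]
        exact hZ i hi
  obtain ⟨y, a, b, h1, h2, -⟩ := main
  refine h1.alpha hk hk2 (by omega) ?_
  rw [h2]
  have : 2 * n + 1 - 1 = 2 * n := by omega
  rw [this]
  push_cast
  ring

end Pool.Agent.Q169.CY
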