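import Pool.Agent.Q169.CY.Step

/-!
# Alpha-labelings of `C_k × P_N`: the two new layers (the steady state)
-/

set_option autoImplicit false
set_option linter.unusedSimpArgs false
set_option linter.unusedVariables false
set_option linter.unnecessarySeqFocus false

namespace Pool.Agent.Q169.CY

theorem nx_succ {k i : ℕ} (h : i + 1 < k) : nx k i = i + 1 := by
  unfold nx
  rw [if_pos h]

theorem nx_last {k i : ℕ} (h : i + 1 = k) : nx k i = 0 := by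
  unfold nx
  rw [if_neg (by omega)]

/-- the distances in the last layer -/
def X0 (m i : ℕ) : ℤ :=
  if i % 2 = 0 then
    (if i / 2 ≤ m then ((i / 2 : ℕ) : ℤ) else
    ((i / 2 : ℕ) : ℤ) + 1)
  else
    (if i / 2 + 1 ≤ 2 * m then ((i / 2 : ℕ) : ℤ) else
    2 * (m : ℤ) + 1)

/-- the distances in the first new layer -/
def Y2 (m i : ℕ) : ℤ :=
  if i % 2 = 0 then
    (if i / 2 + 1 ≤ m then 6 * (m : ℤ) + ((i / 2 : ℕ) : ℤ) + 3 else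
    4 * (m : ℤ) + ((i / 2 : ℕ) : ℤ) + 1)
  else
    (if i / 2 ≤ 0 then 6 * (m : ℤ) + 1 else
    if i / 2 + 2 ≤ m then 4 * (m : ℤ) + ((i / 2 : ℕ) : ℤ) + 3 else
    if i / 2 + 1 ≤ m then 3 * (m : ℤ) + 5 else
    if i / 2 ≤ m + 1 then 4 * (m : ℤ) + ((i / 2 : ℕ) : ℤ) + 2 else
    if i / 2 + 2 ≤ 2 * m then 2 * (m : ℤ) + ((i / 2 : ℕ) : ℤ) + 4 else
    if i / 2 + 1 ≤ 2 * m then 2 * (m : ℤ) + 7 else
    2 * (m : ℤ) + 2)

/-- the distances in the second new layer -/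
def Z2 (m i : ℕ) : ℤ :=
  if i % 2 = 0 then
    (if i / 2 ≤ 0 then 2 * (m : ℤ) + 1 else
    if i / 2 ≤ m + 1 then ((i / 2 : ℕ) : ℤ) - 1 else
    ((i / 2 : ℕ) : ℤ))
  else
    (if i / 2 ≤ 0 then 2 * (m : ℤ) + 1 else
    ((i / 2 : ℕ) : ℤ) - 1)

theorem X0_0_0 {m i : ℕ} (hm : 3 ≤ m) (h1 : i % 2 = 0) (h3 : i / 2 ≤ m) :
    X0 m i = ((i / 2 : ℕ) : ℤ) := by
  unfold X0
  split_ifs <;> omega

theorem X0_0_1 {m i : ℕ} (hm : 3 ≤ m) (h1 : i % 2 = 0) (h2 : m + 1 ≤ i / 2) :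
    X0 m i = ((i / 2 : ℕ) : ℤ) + 1 := by
  unfold X0
  split_ifs <;> omega

theorem X0_1_0 {m i : ℕ} (hm : 3 ≤ m) (h1 : i % 2 = 1) (h3 : i / 2 + 1 ≤ 2 * m) :
    X0 m i = ((i / 2 : ℕ) : ℤ) := by
  unfold X0
  split_ifs <;> omega

theorem X0_1_1 {m i : ℕ} (hm : 3 ≤ m) (h1 : i % 2 = 1) (h2 : 2 * m ≤ i / 2) :
    X0 m i = 2 * (m : ℤ) + 1 := by
  unfold X0
  split_ifs <;> omega

theorem Y2_0_0 {m i : ℕ} (hm : 3 ≤ m) (h1 : i % 2 = 0) (h3 : i / 2 + 1 ≤ m) :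
    Y2 m i = 6 * (m : ℤ) + ((i / 2 : ℕ) : ℤ) + 3 := by
  unfold Y2
  split_ifs <;> omega

theorem Y2_0_1 {m i : ℕ} (hm : 3 ≤ m) (h1 : i % 2 = 0) (h2 : m ≤ i / 2) :
    Y2 m i = 4 * (m : ℤ) + ((i / 2 : ℕ) : ℤ) + 1 := by
  unfold Y2
  split_ifs <;> omega

theorem Y2_1_0 {m i : ℕ} (hm : 3 ≤ m) (h1 : i % 2 = 1) (h3 : i / 2 ≤ 0) :
    Y2 m i = 6 * (m : ℤ) + 1 := by
  unfold Y2
  split_ifs <;> omega

theorem Y2_1_1 {m i : ℕ} (hm : 3 ≤ m) (h1 : i % 2 = 1) (h2 : 1 ≤ i / 2) (h3 : i / 2 + 2 ≤ m) :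
    Y2 m i = 4 * (m : ℤ) + ((i / 2 : ℕ) : ℤ) + 3 := by
  unfold Y2
  split_ifs <;> omega

theorem Y2_1_2 {m i : ℕ} (hm : 3 ≤ m) (h1 : i % 2 = 1) (h2 : m ≤ i / 2 + 1) (h3 : i / 2 + 1 ≤ m) :
    Y2 m i = 3 * (m : ℤ) + 5 := by
  unfold Y2
  split_ifs <;> omega

theorem Y2_1_3 {m i : ℕ} (hm : 3 ≤ m) (h1 : i % 2 = 1) (h2 : m ≤ i / 2) (h3 : i / 2 ≤ m + 1) :
    Y2 m i = 4 * (m : ℤ) + ((i / 2 : ℕ) : ℤ) + 2 := by
  unfold Y2
  split_ifs <;> omega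

theorem Y2_1_4 {m i : ℕ} (hm : 3 ≤ m) (h1 : i % 2 = 1) (h2 : m + 2 ≤ i / 2) (h3 : i / 2 + 2 ≤ 2 * m) :
    Y2 m i = 2 * (m : ℤ) + ((i / 2 : ℕ) : ℤ) + 4 := by
  unfold Y2
  split_ifs <;> omega

theorem Y2_1_5 {m i : ℕ} (hm : 3 ≤ m) (h1 : i % 2 = 1) (h2 : 2 * m ≤ i / 2 + 1) (h3 : i / 2 + 1 ≤ 2 * m) :
    Y2 m i = 2 * (m : ℤ) + 7 := by
  unfold Y2
  split_ifs <;> omega

theorem Y2_1_6 {m i : ℕ} (hm : 3 ≤ m) (h1 : i % 2 = 1) (h2 : 2 * m ≤ i / 2) :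
    Y2 m i = 2 * (m : ℤ) + 2 := by
  unfold Y2
  split_ifs <;> omega

theorem Z2_0_0 {m i : ℕ} (hm : 3 ≤ m) (h1 : i % 2 = 0) (h3 : i / 2 ≤ 0) :
    Z2 m i = 2 * (m : ℤ) + 1 := by
  unfold Z2
  split_ifs <;> omega

theorem Z2_0_1 {m i : ℕ} (hm : 3 ≤ m) (h1 : i % 2 = 0) (h2 : 1 ≤ i / 2) (h3 : i / 2 ≤ m + 1) :
    Z2 m i = ((i / 2 : ℕ) : ℤ) - 1 := by
  unfold Z2
  split_ifs <;> omega

theorem Z2_0_2 {m i : ℕ} (hm : 3 ≤ m) (h1 : i % 2 = 0) (h2 : m + 2 ≤ i / 2) :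
    Z2 m i = ((i / 2 : ℕ) : ℤ) := by
  unfold Z2
  split_ifs <;> omega

theorem Z2_1_0 {m i : ℕ} (hm : 3 ≤ m) (h1 : i % 2 = 1) (h3 : i / 2 ≤ 0) :
    Z2 m i = 2 * (m : ℤ) + 1 := by
  unfold Z2
  split_ifs <;> omega

theorem Z2_1_1 {m i : ℕ} (hm : 3 ≤ m) (h1 : i % 2 = 1) (h2 : 1 ≤ i / 2) :
    Z2 m i = ((i / 2 : ℕ) : ℤ) - 1 := by
  unfold Z2
  split_ifs <;> omega

/-- the sums of the new edges -/
abbrev SS (m e i : ℕ) : ℤ := ns (4 * m + 2) (X0 m) (Y2 m) (Z2 m) (8 * m + 5) e i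

theorem SS_0_0 {m i : ℕ} (h : i % 2 = 0) : SS m 0 i = X0 m i + (8 * m + 5) + Y2 m i := by
  simp [SS, ns, h]

theorem SS_0_1 {m i : ℕ} (h : i % 2 = 1) : SS m 0 i = X0 m i + (8 * m + 3) + Y2 m i := by
  simp [SS, ns, h]
  ring

theorem SS_1 (m i : ℕ) : SS m 1 i = Y2 m i + Y2 m (nx (4 * m + 2) i) := by
  simp [SS, ns]

theorem SS_2 (m i : ℕ) : SS m 2 i = Y2 m i + Z2 m i := by
  simp [SS, ns]

theorem SS_3 (m i : ℕ) : SS m 3 i = Z2 m i + Z2 m (nx (4 * m + 2) i) := by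
  simp [SS, ns]

theorem PS0 {m i : ℕ} (hm : 3 ≤ m) (hi : i < 4 * m + 2) :
    (i % 2 = 0 ∧ 0 ≤ i / 2 ∧ i / 2 + 1 ≤ m ∧ SS m 0 i = 14 * (m : ℤ) + 2 * ((i / 2 : ℕ) : ℤ) + 8) ∨
    (i % 2 = 0 ∧ m ≤ i / 2 ∧ i / 2 ≤ m ∧ SS m 0 i = 12 * (m : ℤ) + 2 * ((i / 2 : ℕ) : ℤ) + 6) ∨
    (i % 2 = 0 ∧ m + 1 ≤ i / 2 ∧ i / 2 ≤ 2 * m ∧ SS m 0 i = 12 * (m : ℤ) + 2 * ((i / 2 : ℕ) : ℤ) + 7) ∨
    (i % 2 = 1 ∧ 0 ≤ i / 2 ∧ i / 2 ≤ 0 ∧ SS m 0 i = 14 * (m : ℤ) + ((i / 2 : ℕ) : ℤ) + 4) ∨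
    (i % 2 = 1 ∧ 1 ≤ i / 2 ∧ i / 2 + 2 ≤ m ∧ SS m 0 i = 12 * (m : ℤ) + 2 * ((i / 2 : ℕ) : ℤ) + 6) ∨
    (i % 2 = 1 ∧ m ≤ i / 2 + 1 ∧ i / 2 + 1 ≤ m ∧ SS m 0 i = 11 * (m : ℤ) + ((i / 2 : ℕ) : ℤ) + 8) ∨
    (i % 2 = 1 ∧ m ≤ i / 2 ∧ i / 2 ≤ m + 1 ∧ SS m 0 i = 12 * (m : ℤ) + 2 * ((i / 2 : ℕ) : ℤ) + 5) ∨
    (i % 2 = 1 ∧ m + 2 ≤ i / 2 ∧ i / 2 + 2 ≤ 2 * m ∧ SS m 0 i = 10 * (m : ℤ) + 2 * ((i / 2 : ℕ) : ℤ) + 7) ∨
    (i % 2 = 1 ∧ 2 * m ≤ i / 2 + 1 ∧ i / 2 + 1 ≤ 2 * m ∧ SS m 0 i = 10 * (m : ℤ) + ((i / 2 : ℕ) : ℤ) + 10) ∨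
    (i % 2 = 1 ∧ 2 * m ≤ i / 2 ∧ i / 2 ≤ 2 * m ∧ SS m 0 i = 12 * (m : ℤ) + 6) := by
  rcases Nat.mod_two_eq_zero_or_one i with hp | hp
  · by_cases c0 : i / 2 + 1 ≤ m
    · refine Or.inl ⟨hp, by omega, by omega, ?_⟩
      have e1 := X0_0_0 (m := m) (i := i) hm (by omega) (by omega)
      have e2 := Y2_0_0 (m := m) (i := i) hm (by omega) (by omega)
      rw [SS_0_0 hp]
      omega
    by_cases c1 : i / 2 ≤ m
    · refine Or.inr (Or.inl ⟨hp, by omega, by omega, ?_⟩)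
      have e1 := X0_0_0 (m := m) (i := i) hm (by omega) (by omega)
      have e2 := Y2_0_1 (m := m) (i := i) hm (by omega) (by omega)
      rw [SS_0_0 hp]
      omega
    refine Or.inr (Or.inr (Or.inl ⟨hp, by omega, by omega, ?_⟩))
    have e1 := X0_0_1 (m := m) (i := i) hm (by omega) (by omega)
    have e2 := Y2_0_1 (m := m) (i := i) hm (by omega) (by omega)
    rw [SS_0_0 hp]
    omega
  · by_cases c0 : i / 2 ≤ 0
    · refine Or.inr (Or.inr (Or.inr (Or.inl ⟨hp, by omega, by omega, ?_⟩)))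
      have e1 := X0_1_0 (m := m) (i := i) hm (by omega) (by omega)
      have e2 := Y2_1_0 (m := m) (i := i) hm (by omega) (by omega)
      rw [SS_0_1 hp]
      omega
    by_cases c1 : i / 2 + 2 ≤ m
    · refine Or.inr (Or.inr (Or.inr (Or.inr (Or.inl ⟨hp, by omega, by omega, ?_⟩))))
      have e1 := X0_1_0 (m := m) (i := i) hm (by omega) (by omega)
      have e2 := Y2_1_1 (m := m) (i := i) hm (by omega) (by omega) (by omega)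
      rw [SS_0_1 hp]
      omega
    by_cases c2 : i / 2 + 1 ≤ m
    · refine Or.inr (Or.inr (Or.inr (Or.inr (Or.inr (Or.inl ⟨hp, by omega, by omega, ?_⟩)))))
      have e1 := X0_1_0 (m := m) (i := i) hm (by omega) (by omega)
      have e2 := Y2_1_2 (m := m) (i := i) hm (by omega) (by omega) (by omega)
      rw [SS_0_1 hp]
      omega
    by_cases c3 : i / 2 ≤ m + 1
    · refine Or.inr (Or.inr (Or.inr (Or.inr (Or.inr (Or.inr (Or.inl ⟨hp, by omega, by omega, ?_⟩))))))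
      have e1 := X0_1_0 (m := m) (i := i) hm (by omega) (by omega)
      have e2 := Y2_1_3 (m := m) (i := i) hm (by omega) (by omega) (by omega)
      rw [SS_0_1 hp]
      omega
    by_cases c4 : i / 2 + 2 ≤ 2 * m
    · refine Or.inr (Or.inr (Or.inr (Or.inr (Or.inr (Or.inr (Or.inr (Or.inl ⟨hp, by omega, by omega, ?_⟩)))))))
      have e1 := X0_1_0 (m := m) (i := i) hm (by omega) (by omega)
      have e2 := Y2_1_4 (m := m) (i := i) hm (by omega) (by omega) (by omega)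
      rw [SS_0_1 hp]
      omega
    by_cases c5 : i / 2 + 1 ≤ 2 * m
    · refine Or.inr (Or.inr (Or.inr (Or.inr (Or.inr (Or.inr (Or.inr (Or.inr (Or.inl ⟨hp, by omega, by omega, ?_⟩))))))))
      have e1 := X0_1_0 (m := m) (i := i) hm (by omega) (by omega)
      have e2 := Y2_1_5 (m := m) (i := i) hm (by omega) (by omega) (by omega)
      rw [SS_0_1 hp]
      omega
    refine Or.inr (Or.inr (Or.inr (Or.inr (Or.inr (Or.inr (Or.inr (Or.inr (Or.inr (⟨hp, by omega, by omega, ?_⟩)))))))))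
    have e1 := X0_1_1 (m := m) (i := i) hm (by omega) (by omega)
    have e2 := Y2_1_6 (m := m) (i := i) hm (by omega) (by omega)
    rw [SS_0_1 hp]
    omega

theorem PS1 {m i : ℕ} (hm : 3 ≤ m) (hi : i < 4 * m + 2) :
    (i % 2 = 0 ∧ 0 ≤ i / 2 ∧ i / 2 ≤ 0 ∧ SS m 1 i = 12 * (m : ℤ) + ((i / 2 : ℕ) : ℤ) + 4) ∨
    (i % 2 = 0 ∧ 1 ≤ i / 2 ∧ i / 2 + 2 ≤ m ∧ SS m 1 i = 10 * (m : ℤ) + 2 * ((i / 2 : ℕ) : ℤ) + 6) ∨
    (i % 2 = 0 ∧ m ≤ i / 2 + 1 ∧ i / 2 + 1 ≤ m ∧ SS m 1 i = 9 * (m : ℤ) + ((i / 2 : ℕ) : ℤ) + 8) ∨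
    (i % 2 = 0 ∧ m ≤ i / 2 ∧ i / 2 ≤ m + 1 ∧ SS m 1 i = 8 * (m : ℤ) + 2 * ((i / 2 : ℕ) : ℤ) + 3) ∨
    (i % 2 = 0 ∧ m + 2 ≤ i / 2 ∧ i / 2 + 2 ≤ 2 * m ∧ SS m 1 i = 6 * (m : ℤ) + 2 * ((i / 2 : ℕ) : ℤ) + 5) ∨
    (i % 2 = 0 ∧ 2 * m ≤ i / 2 + 1 ∧ i / 2 + 1 ≤ 2 * m ∧ SS m 1 i = 6 * (m : ℤ) + ((i / 2 : ℕ) : ℤ) + 8) ∨
    (i % 2 = 0 ∧ 2 * m ≤ i / 2 ∧ i / 2 ≤ 2 * m ∧ SS m 1 i = 6 * (m : ℤ) + ((i / 2 : ℕ) : ℤ) + 3) ∨
    (i % 2 = 1 ∧ 0 ≤ i / 2 ∧ i / 2 ≤ 0 ∧ SS m 1 i = 12 * (m : ℤ) + ((i / 2 : ℕ) : ℤ) + 5) ∨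
    (i % 2 = 1 ∧ 1 ≤ i / 2 ∧ i / 2 + 2 ≤ m ∧ SS m 1 i = 10 * (m : ℤ) + 2 * ((i / 2 : ℕ) : ℤ) + 7) ∨
    (i % 2 = 1 ∧ m ≤ i / 2 + 1 ∧ i / 2 + 1 ≤ m ∧ SS m 1 i = 7 * (m : ℤ) + ((i / 2 : ℕ) : ℤ) + 7) ∨
    (i % 2 = 1 ∧ m ≤ i / 2 ∧ i / 2 ≤ m + 1 ∧ SS m 1 i = 8 * (m : ℤ) + 2 * ((i / 2 : ℕ) : ℤ) + 4) ∨
    (i % 2 = 1 ∧ m + 2 ≤ i / 2 ∧ i / 2 + 2 ≤ 2 * m ∧ SS m 1 i = 6 * (m : ℤ) + 2 * ((i / 2 : ℕ) : ℤ) + 6) ∨
    (i % 2 = 1 ∧ 2 * m ≤ i / 2 + 1 ∧ i / 2 + 1 ≤ 2 * m ∧ SS m 1 i = 6 * (m : ℤ) + ((i / 2 : ℕ) : ℤ) + 9) ∨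
    (i % 2 = 1 ∧ 2 * m ≤ i / 2 ∧ i / 2 ≤ 2 * m ∧ SS m 1 i = 8 * (m : ℤ) + 5) := by
  rcases Nat.mod_two_eq_zero_or_one i with hp | hp
  · by_cases c0 : i / 2 ≤ 0
    · refine Or.inl ⟨hp, by omega, by omega, ?_⟩
      have en : nx (4 * m + 2) i = i + 1 := nx_succ (by omega)
      have e1 := Y2_0_0 (m := m) (i := i) hm (by omega) (by omega)
      have e2 := Y2_1_0 (m := m) (i := (i + 1)) hm (by omega) (by omega)
      rw [SS_1]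
      rw [en]
      omega
    by_cases c1 : i / 2 + 2 ≤ m
    · refine Or.inr (Or.inl ⟨hp, by omega, by omega, ?_⟩)
      have en : nx (4 * m + 2) i = i + 1 := nx_succ (by omega)
      have e1 := Y2_0_0 (m := m) (i := i) hm (by omega) (by omega)
      have e2 := Y2_1_1 (m := m) (i := (i + 1)) hm (by omega) (by omega) (by omega)
      rw [SS_1]
      rw [en]
      omega
    by_cases c2 : i / 2 + 1 ≤ m
    · refine Or.inr (Or.inr (Or.inl ⟨hp, by omega, by omega, ?_⟩))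
      have en : nx (4 * m + 2) i = i + 1 := nx_succ (by omega)
      have e1 := Y2_0_0 (m := m) (i := i) hm (by omega) (by omega)
      have e2 := Y2_1_2 (m := m) (i := (i + 1)) hm (by omega) (by omega) (by omega)
      rw [SS_1]
      rw [en]
      omega
    by_cases c3 : i / 2 ≤ m + 1
    · refine Or.inr (Or.inr (Or.inr (Or.inl ⟨hp, by omega, by omega, ?_⟩)))
      have en : nx (4 * m + 2) i = i + 1 := nx_succ (by omega)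
      have e1 := Y2_0_1 (m := m) (i := i) hm (by omega) (by omega)
      have e2 := Y2_1_3 (m := m) (i := (i + 1)) hm (by omega) (by omega) (by omega)
      rw [SS_1]
      rw [en]
      omega
    by_cases c4 : i / 2 + 2 ≤ 2 * m
    · refine Or.inr (Or.inr (Or.inr (Or.inr (Or.inl ⟨hp, by omega, by omega, ?_⟩))))
      have en : nx (4 * m + 2) i = i + 1 := nx_succ (by omega)
      have e1 := Y2_0_1 (m := m) (i := i) hm (by omega) (by omega)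
      have e2 := Y2_1_4 (m := m) (i := (i + 1)) hm (by omega) (by omega) (by omega)
      rw [SS_1]
      rw [en]
      omega
    by_cases c5 : i / 2 + 1 ≤ 2 * m
    · refine Or.inr (Or.inr (Or.inr (Or.inr (Or.inr (Or.inl ⟨hp, by omega, by omega, ?_⟩)))))
      have en : nx (4 * m + 2) i = i + 1 := nx_succ (by omega)
      have e1 := Y2_0_1 (m := m) (i := i) hm (by omega) (by omega)
      have e2 := Y2_1_5 (m := m) (i := (i + 1)) hm (by omega) (by omega) (by omega)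
      rw [SS_1]
      rw [en]
      omega
    refine Or.inr (Or.inr (Or.inr (Or.inr (Or.inr (Or.inr (Or.inl ⟨hp, by omega, by omega, ?_⟩))))))
    have en : nx (4 * m + 2) i = i + 1 := nx_succ (by omega)
    have e1 := Y2_0_1 (m := m) (i := i) hm (by omega) (by omega)
    have e2 := Y2_1_6 (m := m) (i := (i + 1)) hm (by omega) (by omega)
    rw [SS_1]
    rw [en]
    omega
  · by_cases c0 : i / 2 ≤ 0
    · refine Or.inr (Or.inr (Or.inr (Or.inr (Or.inr (Or.inr (Or.inr (Or.inl ⟨hp, by omega, by omega, ?_⟩)))))))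
      have en : nx (4 * m + 2) i = i + 1 := nx_succ (by omega)
      have e1 := Y2_1_0 (m := m) (i := i) hm (by omega) (by omega)
      have e2 := Y2_0_0 (m := m) (i := (i + 1)) hm (by omega) (by omega)
      rw [SS_1]
      rw [en]
      omega
    by_cases c1 : i / 2 + 2 ≤ m
    · refine Or.inr (Or.inr (Or.inr (Or.inr (Or.inr (Or.inr (Or.inr (Or.inr (Or.inl ⟨hp, by omega, by omega, ?_⟩))))))))
      have en : nx (4 * m + 2) i = i + 1 := nx_succ (by omega)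
      have e1 := Y2_1_1 (m := m) (i := i) hm (by omega) (by omega) (by omega)
      have e2 := Y2_0_0 (m := m) (i := (i + 1)) hm (by omega) (by omega)
      rw [SS_1]
      rw [en]
      omega
    by_cases c2 : i / 2 + 1 ≤ m
    · refine Or.inr (Or.inr (Or.inr (Or.inr (Or.inr (Or.inr (Or.inr (Or.inr (Or.inr (Or.inl ⟨hp, by omega, by omega, ?_⟩)))))))))
      have en : nx (4 * m + 2) i = i + 1 := nx_succ (by omega)
      have e1 := Y2_1_2 (m := m) (i := i) hm (by omega) (by omega) (by omega)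
      have e2 := Y2_0_1 (m := m) (i := (i + 1)) hm (by omega) (by omega)
      rw [SS_1]
      rw [en]
      omega
    by_cases c3 : i / 2 ≤ m + 1
    · refine Or.inr (Or.inr (Or.inr (Or.inr (Or.inr (Or.inr (Or.inr (Or.inr (Or.inr (Or.inr (Or.inl ⟨hp, by omega, by omega, ?_⟩))))))))))
      have en : nx (4 * m + 2) i = i + 1 := nx_succ (by omega)
      have e1 := Y2_1_3 (m := m) (i := i) hm (by omega) (by omega) (by omega)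
      have e2 := Y2_0_1 (m := m) (i := (i + 1)) hm (by omega) (by omega)
      rw [SS_1]
      rw [en]
      omega
    by_cases c4 : i / 2 + 2 ≤ 2 * m
    · refine Or.inr (Or.inr (Or.inr (Or.inr (Or.inr (Or.inr (Or.inr (Or.inr (Or.inr (Or.inr (Or.inr (Or.inl ⟨hp, by omega, by omega, ?_⟩)))))))))))
      have en : nx (4 * m + 2) i = i + 1 := nx_succ (by omega)
      have e1 := Y2_1_4 (m := m) (i := i) hm (by omega) (by omega) (by omega)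
      have e2 := Y2_0_1 (m := m) (i := (i + 1)) hm (by omega) (by omega)
      rw [SS_1]
      rw [en]
      omega
    by_cases c5 : i / 2 + 1 ≤ 2 * m
    · refine Or.inr (Or.inr (Or.inr (Or.inr (Or.inr (Or.inr (Or.inr (Or.inr (Or.inr (Or.inr (Or.inr (Or.inr (Or.inl ⟨hp, by omega, by omega, ?_⟩))))))))))))
      have en : nx (4 * m + 2) i = i + 1 := nx_succ (by omega)
      have e1 := Y2_1_5 (m := m) (i := i) hm (by omega) (by omega) (by omega)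
      have e2 := Y2_0_1 (m := m) (i := (i + 1)) hm (by omega) (by omega)
      rw [SS_1]
      rw [en]
      omega
    refine Or.inr (Or.inr (Or.inr (Or.inr (Or.inr (Or.inr (Or.inr (Or.inr (Or.inr (Or.inr (Or.inr (Or.inr (Or.inr (⟨hp, by omega, by omega, ?_⟩)))))))))))))
    have en : nx (4 * m + 2) i = 0 := nx_last (by omega)
    have e1 := Y2_1_6 (m := m) (i := i) hm (by omega) (by omega)
    have e2 := Y2_0_0 (m := m) (i := 0) hm (by omega) (by omega)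
    rw [SS_1]
    rw [en]
    omega

theorem PS2 {m i : ℕ} (hm : 3 ≤ m) (hi : i < 4 * m + 2) :
    (i % 2 = 0 ∧ 0 ≤ i / 2 ∧ i / 2 ≤ 0 ∧ SS m 2 i = 8 * (m : ℤ) + ((i / 2 : ℕ) : ℤ) + 4) ∨
    (i % 2 = 0 ∧ 1 ≤ i / 2 ∧ i / 2 + 1 ≤ m ∧ SS m 2 i = 6 * (m : ℤ) + 2 * ((i / 2 : ℕ) : ℤ) + 2) ∨
    (i % 2 = 0 ∧ m ≤ i / 2 ∧ i / 2 ≤ m + 1 ∧ SS m 2 i = 4 * (m : ℤ) + 2 * ((i / 2 : ℕ) : ℤ)) ∨
    (i % 2 = 0 ∧ m + 2 ≤ i / 2 ∧ i / 2 ≤ 2 * m ∧ SS m 2 i = 4 * (m : ℤ) + 2 * ((i / 2 : ℕ) : ℤ) + 1) ∨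
    (i % 2 = 1 ∧ 0 ≤ i / 2 ∧ i / 2 ≤ 0 ∧ SS m 2 i = 8 * (m : ℤ) + 2) ∨
    (i % 2 = 1 ∧ 1 ≤ i / 2 ∧ i / 2 + 2 ≤ m ∧ SS m 2 i = 4 * (m : ℤ) + 2 * ((i / 2 : ℕ) : ℤ) + 2) ∨
    (i % 2 = 1 ∧ m ≤ i / 2 + 1 ∧ i / 2 + 1 ≤ m ∧ SS m 2 i = 3 * (m : ℤ) + ((i / 2 : ℕ) : ℤ) + 4) ∨
    (i % 2 = 1 ∧ m ≤ i / 2 ∧ i / 2 ≤ m + 1 ∧ SS m 2 i = 4 * (m : ℤ) + 2 * ((i / 2 : ℕ) : ℤ) + 1) ∨
    (i % 2 = 1 ∧ m + 2 ≤ i / 2 ∧ i / 2 + 2 ≤ 2 * m ∧ SS m 2 i = 2 * (m : ℤ) + 2 * ((i / 2 : ℕ) : ℤ) + 3) ∨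
    (i % 2 = 1 ∧ 2 * m ≤ i / 2 + 1 ∧ i / 2 + 1 ≤ 2 * m ∧ SS m 2 i = 2 * (m : ℤ) + ((i / 2 : ℕ) : ℤ) + 6) ∨
    (i % 2 = 1 ∧ 2 * m ≤ i / 2 ∧ i / 2 ≤ 2 * m ∧ SS m 2 i = 2 * (m : ℤ) + ((i / 2 : ℕ) : ℤ) + 1) := by
  rcases Nat.mod_two_eq_zero_or_one i with hp | hp
  · by_cases c0 : i / 2 ≤ 0
    · refine Or.inl ⟨hp, by omega, by omega, ?_⟩
      have e1 := Y2_0_0 (m := m) (i := i) hm (by omega) (by omega)
      have e2 := Z2_0_0 (m := m) (i := i) hm (by omega) (by omega)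
      rw [SS_2]
      omega
    by_cases c1 : i / 2 + 1 ≤ m
    · refine Or.inr (Or.inl ⟨hp, by omega, by omega, ?_⟩)
      have e1 := Y2_0_0 (m := m) (i := i) hm (by omega) (by omega)
      have e2 := Z2_0_1 (m := m) (i := i) hm (by omega) (by omega) (by omega)
      rw [SS_2]
      omega
    by_cases c2 : i / 2 ≤ m + 1
    · refine Or.inr (Or.inr (Or.inl ⟨hp, by omega, by omega, ?_⟩))
      have e1 := Y2_0_1 (m := m) (i := i) hm (by omega) (by omega)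
      have e2 := Z2_0_1 (m := m) (i := i) hm (by omega) (by omega) (by omega)
      rw [SS_2]
      omega
    refine Or.inr (Or.inr (Or.inr (Or.inl ⟨hp, by omega, by omega, ?_⟩)))
    have e1 := Y2_0_1 (m := m) (i := i) hm (by omega) (by omega)
    have e2 := Z2_0_2 (m := m) (i := i) hm (by omega) (by omega)
    rw [SS_2]
    omega
  · by_cases c0 : i / 2 ≤ 0
    · refine Or.inr (Or.inr (Or.inr (Or.inr (Or.inl ⟨hp, by omega, by omega, ?_⟩))))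
      have e1 := Y2_1_0 (m := m) (i := i) hm (by omega) (by omega)
      have e2 := Z2_1_0 (m := m) (i := i) hm (by omega) (by omega)
      rw [SS_2]
      omega
    by_cases c1 : i / 2 + 2 ≤ m
    · refine Or.inr (Or.inr (Or.inr (Or.inr (Or.inr (Or.inl ⟨hp, by omega, by omega, ?_⟩)))))
      have e1 := Y2_1_1 (m := m) (i := i) hm (by omega) (by omega) (by omega)
      have e2 := Z2_1_1 (m := m) (i := i) hm (by omega) (by omega)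
      rw [SS_2]
      omega
    by_cases c2 : i / 2 + 1 ≤ m
    · refine Or.inr (Or.inr (Or.inr (Or.inr (Or.inr (Or.inr (Or.inl ⟨hp, by omega, by omega, ?_⟩))))))
      have e1 := Y2_1_2 (m := m) (i := i) hm (by omega) (by omega) (by omega)
      have e2 := Z2_1_1 (m := m) (i := i) hm (by omega) (by omega)
      rw [SS_2]
      omega
    by_cases c3 : i / 2 ≤ m + 1
    · refine Or.inr (Or.inr (Or.inr (Or.inr (Or.inr (Or.inr (Or.inr (Or.inl ⟨hp, by omega, by omega, ?_⟩)))))))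
      have e1 := Y2_1_3 (m := m) (i := i) hm (by omega) (by omega) (by omega)
      have e2 := Z2_1_1 (m := m) (i := i) hm (by omega) (by omega)
      rw [SS_2]
      omega
    by_cases c4 : i / 2 + 2 ≤ 2 * m
    · refine Or.inr (Or.inr (Or.inr (Or.inr (Or.inr (Or.inr (Or.inr (Or.inr (Or.inl ⟨hp, by omega, by omega, ?_⟩))))))))
      have e1 := Y2_1_4 (m := m) (i := i) hm (by omega) (by omega) (by omega)
      have e2 := Z2_1_1 (m := m) (i := i) hm (by omega) (by omega)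
      rw [SS_2]
      omega
    by_cases c5 : i / 2 + 1 ≤ 2 * m
    · refine Or.inr (Or.inr (Or.inr (Or.inr (Or.inr (Or.inr (Or.inr (Or.inr (Or.inr (Or.inl ⟨hp, by omega, by omega, ?_⟩)))))))))
      have e1 := Y2_1_5 (m := m) (i := i) hm (by omega) (by omega) (by omega)
      have e2 := Z2_1_1 (m := m) (i := i) hm (by omega) (by omega)
      rw [SS_2]
      omega
    refine Or.inr (Or.inr (Or.inr (Or.inr (Or.inr (Or.inr (Or.inr (Or.inr (Or.inr (Or.inr (⟨hp, by omega, by omega, ?_⟩))))))))))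
    have e1 := Y2_1_6 (m := m) (i := i) hm (by omega) (by omega)
    have e2 := Z2_1_1 (m := m) (i := i) hm (by omega) (by omega)
    rw [SS_2]
    omega

theorem PS3 {m i : ℕ} (hm : 3 ≤ m) (hi : i < 4 * m + 2) :
    (i % 2 = 0 ∧ 0 ≤ i / 2 ∧ i / 2 ≤ 0 ∧ SS m 3 i = 4 * (m : ℤ) + 2) ∨
    (i % 2 = 0 ∧ 1 ≤ i / 2 ∧ i / 2 ≤ m + 1 ∧ SS m 3 i = 2 * ((i / 2 : ℕ) : ℤ) - 2) ∨
    (i % 2 = 0 ∧ m + 2 ≤ i / 2 ∧ i / 2 ≤ 2 * m ∧ SS m 3 i = 2 * ((i / 2 : ℕ) : ℤ) - 1) ∨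
    (i % 2 = 1 ∧ 0 ≤ i / 2 ∧ i / 2 ≤ 0 ∧ SS m 3 i = 2 * (m : ℤ) + ((i / 2 : ℕ) : ℤ) + 1) ∨
    (i % 2 = 1 ∧ 1 ≤ i / 2 ∧ i / 2 ≤ m ∧ SS m 3 i = 2 * ((i / 2 : ℕ) : ℤ) - 1) ∨
    (i % 2 = 1 ∧ m + 1 ≤ i / 2 ∧ i / 2 + 1 ≤ 2 * m ∧ SS m 3 i = 2 * ((i / 2 : ℕ) : ℤ)) ∨
    (i % 2 = 1 ∧ 2 * m ≤ i / 2 ∧ i / 2 ≤ 2 * m ∧ SS m 3 i = 2 * (m : ℤ) + ((i / 2 : ℕ) : ℤ)) := by
  rcases Nat.mod_two_eq_zero_or_one i with hp | hp
  · by_cases c0 : i / 2 ≤ 0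
    · refine Or.inl ⟨hp, by omega, by omega, ?_⟩
      have en : nx (4 * m + 2) i = i + 1 := nx_succ (by omega)
      have e1 := Z2_0_0 (m := m) (i := i) hm (by omega) (by omega)
      have e2 := Z2_1_0 (m := m) (i := (i + 1)) hm (by omega) (by omega)
      rw [SS_3]
      rw [en]
      omega
    by_cases c1 : i / 2 ≤ m + 1
    · refine Or.inr (Or.inl ⟨hp, by omega, by omega, ?_⟩)
      have en : nx (4 * m + 2) i = i + 1 := nx_succ (by omega)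
      have e1 := Z2_0_1 (m := m) (i := i) hm (by omega) (by omega) (by omega)
      have e2 := Z2_1_1 (m := m) (i := (i + 1)) hm (by omega) (by omega)
      rw [SS_3]
      rw [en]
      omega
    refine Or.inr (Or.inr (Or.inl ⟨hp, by omega, by omega, ?_⟩))
    have en : nx (4 * m + 2) i = i + 1 := nx_succ (by omega)
    have e1 := Z2_0_2 (m := m) (i := i) hm (by omega) (by omega)
    have e2 := Z2_1_1 (m := m) (i := (i + 1)) hm (by omega) (by omega)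
    rw [SS_3]
    rw [en]
    omega
  · by_cases c0 : i / 2 ≤ 0
    · refine Or.inr (Or.inr (Or.inr (Or.inl ⟨hp, by omega, by omega, ?_⟩)))
      have en : nx (4 * m + 2) i = i + 1 := nx_succ (by omega)
      have e1 := Z2_1_0 (m := m) (i := i) hm (by omega) (by omega)
      have e2 := Z2_0_1 (m := m) (i := (i + 1)) hm (by omega) (by omega) (by omega)
      rw [SS_3]
      rw [en]
      omega
    by_cases c1 : i / 2 ≤ m
    · refine Or.inr (Or.inr (Or.inr (Or.inr (Or.inl ⟨hp, by omega, by omega, ?_⟩))))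
      have en : nx (4 * m + 2) i = i + 1 := nx_succ (by omega)
      have e1 := Z2_1_1 (m := m) (i := i) hm (by omega) (by omega)
      have e2 := Z2_0_1 (m := m) (i := (i + 1)) hm (by omega) (by omega) (by omega)
      rw [SS_3]
      rw [en]
      omega
    by_cases c2 : i / 2 + 1 ≤ 2 * m
    · refine Or.inr (Or.inr (Or.inr (Or.inr (Or.inr (Or.inl ⟨hp, by omega, by omega, ?_⟩)))))
      have en : nx (4 * m + 2) i = i + 1 := nx_succ (by omega)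
      have e1 := Z2_1_1 (m := m) (i := i) hm (by omega) (by omega)
      have e2 := Z2_0_2 (m := m) (i := (i + 1)) hm (by omega) (by omega)
      rw [SS_3]
      rw [en]
      omega
    refine Or.inr (Or.inr (Or.inr (Or.inr (Or.inr (Or.inr (⟨hp, by omega, by omega, ?_⟩))))))
    have en : nx (4 * m + 2) i = 0 := nx_last (by omega)
    have e1 := Z2_1_1 (m := m) (i := i) hm (by omega) (by omega)
    have e2 := Z2_0_0 (m := m) (i := 0) hm (by omega) (by omega)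
    rw [SS_3]
    rw [en]
    omega

end Pool.Agent.Q169.CY
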