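import Pool.Agent.Q169.CY.StepData

/-!
# Alpha-labelings of `C_k × P_N`: the sums of the new edges are distinct
-/

set_option autoImplicit false
set_option linter.unusedSimpArgs false
set_option linter.unusedVariables false

namespace Pool.Agent.Q169.CY

theorem QS0 {m i i' : ℕ} (hm : 3 ≤ m) (hi : i < 4 * m + 2) (hi' : i' < 4 * m + 2)
    (h : SS m 0 i = SS m 0 i') : i = i' := by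
  rcases PS0 hm hi with ⟨a1, a2, a3, a4⟩ | ⟨a1, a2, a3, a4⟩ | ⟨a1, a2, a3, a4⟩ | ⟨a1, a2, a3, a4⟩ | ⟨a1, a2, a3, a4⟩ | ⟨a1, a2, a3, a4⟩ | ⟨a1, a2, a3, a4⟩ | ⟨a1, a2, a3, a4⟩ | ⟨a1, a2, a3, a4⟩ | ⟨a1, a2, a3, a4⟩ <;>
    rcases PS0 hm hi' with ⟨b1, b2, b3, b4⟩ | ⟨b1, b2, b3, b4⟩ | ⟨b1, b2, b3, b4⟩ | ⟨b1, b2, b3, b4⟩ | ⟨b1, b2, b3, b4⟩ | ⟨b1, b2, b3, b4⟩ | ⟨b1, b2, b3, b4⟩ | ⟨b1, b2, b3, b4⟩ | ⟨b1, b2, b3, b4⟩ | ⟨b1, b2, b3, b4⟩ <;>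
    (rw [a4, b4] at h; omega)

theorem QS1 {m i i' : ℕ} (hm : 3 ≤ m) (hi : i < 4 * m + 2) (hi' : i' < 4 * m + 2)
    (h : SS m 1 i = SS m 1 i') : i = i' := by
  rcases PS1 hm hi with ⟨a1, a2, a3, a4⟩ | ⟨a1, a2, a3, a4⟩ | ⟨a1, a2, a3, a4⟩ | ⟨a1, a2, a3, a4⟩ | ⟨a1, a2, a3, a4⟩ | ⟨a1, a2, a3, a4⟩ | ⟨a1, a2, a3, a4⟩ | ⟨a1, a2, a3, a4⟩ | ⟨a1, a2, a3, a4⟩ | ⟨a1, a2, a3, a4⟩ | ⟨a1, a2, a3, a4⟩ | ⟨a1, a2, a3, a4⟩ | ⟨a1, a2, a3, a4⟩ | ⟨a1, a2, a3, a4⟩ <;>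
    rcases PS1 hm hi' with ⟨b1, b2, b3, b4⟩ | ⟨b1, b2, b3, b4⟩ | ⟨b1, b2, b3, b4⟩ | ⟨b1, b2, b3, b4⟩ | ⟨b1, b2, b3, b4⟩ | ⟨b1, b2, b3, b4⟩ | ⟨b1, b2, b3, b4⟩ | ⟨b1, b2, b3, b4⟩ | ⟨b1, b2, b3, b4⟩ | ⟨b1, b2, b3, b4⟩ | ⟨b1, b2, b3, b4⟩ | ⟨b1, b2, b3, b4⟩ | ⟨b1, b2, b3, b4⟩ | ⟨b1, b2, b3, b4⟩ <;>
    (rw [a4, b4] at h; omega)

theorem QS2 {m i i' : ℕ} (hm : 3 ≤ m) (hi : i < 4 * m + 2) (hi' : i' < 4 * m + 2)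
    (h : SS m 2 i = SS m 2 i') : i = i' := by
  rcases PS2 hm hi with ⟨a1, a2, a3, a4⟩ | ⟨a1, a2, a3, a4⟩ | ⟨a1, a2, a3, a4⟩ | ⟨a1, a2, a3, a4⟩ | ⟨a1, a2, a3, a4⟩ | ⟨a1, a2, a3, a4⟩ | ⟨a1, a2, a3, a4⟩ | ⟨a1, a2, a3, a4⟩ | ⟨a1, a2, a3, a4⟩ | ⟨a1, a2, a3, a4⟩ | ⟨a1, a2, a3, a4⟩ <;>
    rcases PS2 hm hi' with ⟨b1, b2, b3, b4⟩ | ⟨b1, b2, b3, b4⟩ | ⟨b1, b2, b3, b4⟩ | ⟨b1, b2, b3, b4⟩ | ⟨b1, b2, b3, b4⟩ | ⟨b1, b2, b3, b4⟩ | ⟨b1, b2, b3, b4⟩ | ⟨b1, b2, b3, b4⟩ | ⟨b1, b2, b3, b4⟩ | ⟨b1, b2, b3, b4⟩ | ⟨b1, b2, b3, b4⟩ <;>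
    (rw [a4, b4] at h; omega)

theorem QS3 {m i i' : ℕ} (hm : 3 ≤ m) (hi : i < 4 * m + 2) (hi' : i' < 4 * m + 2)
    (h : SS m 3 i = SS m 3 i') : i = i' := by
  rcases PS3 hm hi with ⟨a1, a2, a3, a4⟩ | ⟨a1, a2, a3, a4⟩ | ⟨a1, a2, a3, a4⟩ | ⟨a1, a2, a3, a4⟩ | ⟨a1, a2, a3, a4⟩ | ⟨a1, a2, a3, a4⟩ | ⟨a1, a2, a3, a4⟩ <;>
    rcases PS3 hm hi' with ⟨b1, b2, b3, b4⟩ | ⟨b1, b2, b3, b4⟩ | ⟨b1, b2, b3, b4⟩ | ⟨b1, b2, b3, b4⟩ | ⟨b1, b2, b3, b4⟩ | ⟨b1, b2, b3, b4⟩ | ⟨b1, b2, b3, b4⟩ <;>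
    (rw [a4, b4] at h; omega)

theorem QS0_1 {m i i' : ℕ} (hm : 3 ≤ m) (hi : i < 4 * m + 2) (hi' : i' < 4 * m + 2) :
    SS m 0 i ≠ SS m 1 i' := by
  intro h
  rcases PS0 hm hi with ⟨a1, a2, a3, a4⟩ | ⟨a1, a2, a3, a4⟩ | ⟨a1, a2, a3, a4⟩ | ⟨a1, a2, a3, a4⟩ | ⟨a1, a2, a3, a4⟩ | ⟨a1, a2, a3, a4⟩ | ⟨a1, a2, a3, a4⟩ | ⟨a1, a2, a3, a4⟩ | ⟨a1, a2, a3, a4⟩ | ⟨a1, a2, a3, a4⟩ <;>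
    rcases PS1 hm hi' with ⟨b1, b2, b3, b4⟩ | ⟨b1, b2, b3, b4⟩ | ⟨b1, b2, b3, b4⟩ | ⟨b1, b2, b3, b4⟩ | ⟨b1, b2, b3, b4⟩ | ⟨b1, b2, b3, b4⟩ | ⟨b1, b2, b3, b4⟩ | ⟨b1, b2, b3, b4⟩ | ⟨b1, b2, b3, b4⟩ | ⟨b1, b2, b3, b4⟩ | ⟨b1, b2, b3, b4⟩ | ⟨b1, b2, b3, b4⟩ | ⟨b1, b2, b3, b4⟩ | ⟨b1, b2, b3, b4⟩ <;>
    (rw [a4, b4] at h; omega)

theorem QS0_2 {m i i' : ℕ} (hm : 3 ≤ m) (hi : i < 4 * m + 2) (hi' : i' < 4 * m + 2) :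
    SS m 0 i ≠ SS m 2 i' := by
  intro h
  rcases PS0 hm hi with ⟨a1, a2, a3, a4⟩ | ⟨a1, a2, a3, a4⟩ | ⟨a1, a2, a3, a4⟩ | ⟨a1, a2, a3, a4⟩ | ⟨a1, a2, a3, a4⟩ | ⟨a1, a2, a3, a4⟩ | ⟨a1, a2, a3, a4⟩ | ⟨a1, a2, a3, a4⟩ | ⟨a1, a2, a3, a4⟩ | ⟨a1, a2, a3, a4⟩ <;>
    rcases PS2 hm hi' with ⟨b1, b2, b3, b4⟩ | ⟨b1, b2, b3, b4⟩ | ⟨b1, b2, b3, b4⟩ | ⟨b1, b2, b3, b4⟩ | ⟨b1, b2, b3, b4⟩ | ⟨b1, b2, b3, b4⟩ | ⟨b1, b2, b3, b4⟩ | ⟨b1, b2, b3, b4⟩ | ⟨b1, b2, b3, b4⟩ | ⟨b1, b2, b3, b4⟩ | ⟨b1, b2, b3, b4⟩ <;>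
    (rw [a4, b4] at h; omega)

theorem QS0_3 {m i i' : ℕ} (hm : 3 ≤ m) (hi : i < 4 * m + 2) (hi' : i' < 4 * m + 2) :
    SS m 0 i ≠ SS m 3 i' := by
  intro h
  rcases PS0 hm hi with ⟨a1, a2, a3, a4⟩ | ⟨a1, a2, a3, a4⟩ | ⟨a1, a2, a3, a4⟩ | ⟨a1, a2, a3, a4⟩ | ⟨a1, a2, a3, a4⟩ | ⟨a1, a2, a3, a4⟩ | ⟨a1, a2, a3, a4⟩ | ⟨a1, a2, a3, a4⟩ | ⟨a1, a2, a3, a4⟩ | ⟨a1, a2, a3, a4⟩ <;>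
    rcases PS3 hm hi' with ⟨b1, b2, b3, b4⟩ | ⟨b1, b2, b3, b4⟩ | ⟨b1, b2, b3, b4⟩ | ⟨b1, b2, b3, b4⟩ | ⟨b1, b2, b3, b4⟩ | ⟨b1, b2, b3, b4⟩ | ⟨b1, b2, b3, b4⟩ <;>
    (rw [a4, b4] at h; omega)

theorem QS1_2 {m i i' : ℕ} (hm : 3 ≤ m) (hi : i < 4 * m + 2) (hi' : i' < 4 * m + 2) :
    SS m 1 i ≠ SS m 2 i' := by
  intro h
  rcases PS1 hm hi with ⟨a1, a2, a3, a4⟩ | ⟨a1, a2, a3, a4⟩ | ⟨a1, a2, a3, a4⟩ | ⟨a1, a2, a3, a4⟩ | ⟨a1, a2, a3, a4⟩ | ⟨a1, a2, a3, a4⟩ | ⟨a1, a2, a3, a4⟩ | ⟨a1, a2, a3, a4⟩ | ⟨a1, a2, a3, a4⟩ | ⟨a1, a2, a3, a4⟩ | ⟨a1, a2, a3, a4⟩ | ⟨a1, a2, a3, a4⟩ | ⟨a1, a2, a3, a4⟩ | ⟨a1, a2, a3, a4⟩ <;>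
    rcases PS2 hm hi' with ⟨b1, b2, b3, b4⟩ | ⟨b1, b2, b3, b4⟩ | ⟨b1, b2, b3, b4⟩ | ⟨b1, b2, b3, b4⟩ | ⟨b1, b2, b3, b4⟩ | ⟨b1, b2, b3, b4⟩ | ⟨b1, b2, b3, b4⟩ | ⟨b1, b2, b3, b4⟩ | ⟨b1, b2, b3, b4⟩ | ⟨b1, b2, b3, b4⟩ | ⟨b1, b2, b3, b4⟩ <;>
    (rw [a4, b4] at h; omega)

theorem QS1_3 {m i i' : ℕ} (hm : 3 ≤ m) (hi : i < 4 * m + 2) (hi' : i' < 4 * m + 2) :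
    SS m 1 i ≠ SS m 3 i' := by
  intro h
  rcases PS1 hm hi with ⟨a1, a2, a3, a4⟩ | ⟨a1, a2, a3, a4⟩ | ⟨a1, a2, a3, a4⟩ | ⟨a1, a2, a3, a4⟩ | ⟨a1, a2, a3, a4⟩ | ⟨a1, a2, a3, a4⟩ | ⟨a1, a2, a3, a4⟩ | ⟨a1, a2, a3, a4⟩ | ⟨a1, a2, a3, a4⟩ | ⟨a1, a2, a3, a4⟩ | ⟨a1, a2, a3, a4⟩ | ⟨a1, a2, a3, a4⟩ | ⟨a1, a2, a3, a4⟩ | ⟨a1, a2, a3, a4⟩ <;>
    rcases PS3 hm hi' with ⟨b1, b2, b3, b4⟩ | ⟨b1, b2, b3, b4⟩ | ⟨b1, b2, b3, b4⟩ | ⟨b1, b2, b3, b4⟩ | ⟨b1, b2, b3, b4⟩ | ⟨b1, b2, b3, b4⟩ | ⟨b1, b2, b3, b4⟩ <;>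
    (rw [a4, b4] at h; omega)

theorem QS2_3 {m i i' : ℕ} (hm : 3 ≤ m) (hi : i < 4 * m + 2) (hi' : i' < 4 * m + 2) :
    SS m 2 i ≠ SS m 3 i' := by
  intro h
  rcases PS2 hm hi with ⟨a1, a2, a3, a4⟩ | ⟨a1, a2, a3, a4⟩ | ⟨a1, a2, a3, a4⟩ | ⟨a1, a2, a3, a4⟩ | ⟨a1, a2, a3, a4⟩ | ⟨a1, a2, a3, a4⟩ | ⟨a1, a2, a3, a4⟩ | ⟨a1, a2, a3, a4⟩ | ⟨a1, a2, a3, a4⟩ | ⟨a1, a2, a3, a4⟩ | ⟨a1, a2, a3, a4⟩ <;>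
    rcases PS3 hm hi' with ⟨b1, b2, b3, b4⟩ | ⟨b1, b2, b3, b4⟩ | ⟨b1, b2, b3, b4⟩ | ⟨b1, b2, b3, b4⟩ | ⟨b1, b2, b3, b4⟩ | ⟨b1, b2, b3, b4⟩ | ⟨b1, b2, b3, b4⟩ <;>
    (rw [a4, b4] at h; omega)

theorem RS0 {m i : ℕ} (hm : 3 ≤ m) (hi : i < 4 * m + 2) : SS m 0 i < 4 * ((4 * m + 2 : ℕ) : ℤ) := by
  rcases PS0 hm hi with ⟨a1, a2, a3, a4⟩ | ⟨a1, a2, a3, a4⟩ | ⟨a1, a2, a3, a4⟩ | ⟨a1, a2, a3, a4⟩ | ⟨a1, a2, a3, a4⟩ | ⟨a1, a2, a3, a4⟩ | ⟨a1, a2, a3, a4⟩ | ⟨a1, a2, a3, a4⟩ | ⟨a1, a2, a3, a4⟩ | ⟨a1, a2, a3, a4⟩ <;> (rw [a4]; omega)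

theorem RS1 {m i : ℕ} (hm : 3 ≤ m) (hi : i < 4 * m + 2) : SS m 1 i < 4 * ((4 * m + 2 : ℕ) : ℤ) := by
  rcases PS1 hm hi with ⟨a1, a2, a3, a4⟩ | ⟨a1, a2, a3, a4⟩ | ⟨a1, a2, a3, a4⟩ | ⟨a1, a2, a3, a4⟩ | ⟨a1, a2, a3, a4⟩ | ⟨a1, a2, a3, a4⟩ | ⟨a1, a2, a3, a4⟩ | ⟨a1, a2, a3, a4⟩ | ⟨a1, a2, a3, a4⟩ | ⟨a1, a2, a3, a4⟩ | ⟨a1, a2, a3, a4⟩ | ⟨a1, a2, a3, a4⟩ | ⟨a1, a2, a3, a4⟩ | ⟨a1, a2, a3, a4⟩ <;> (rw [a4]; omega)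

theorem RS2 {m i : ℕ} (hm : 3 ≤ m) (hi : i < 4 * m + 2) : SS m 2 i < 4 * ((4 * m + 2 : ℕ) : ℤ) := by
  rcases PS2 hm hi with ⟨a1, a2, a3, a4⟩ | ⟨a1, a2, a3, a4⟩ | ⟨a1, a2, a3, a4⟩ | ⟨a1, a2, a3, a4⟩ | ⟨a1, a2, a3, a4⟩ | ⟨a1, a2, a3, a4⟩ | ⟨a1, a2, a3, a4⟩ | ⟨a1, a2, a3, a4⟩ | ⟨a1, a2, a3, a4⟩ | ⟨a1, a2, a3, a4⟩ | ⟨a1, a2, a3, a4⟩ <;> (rw [a4]; omega)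

theorem RS3 {m i : ℕ} (hm : 3 ≤ m) (hi : i < 4 * m + 2) : SS m 3 i < 4 * ((4 * m + 2 : ℕ) : ℤ) := by
  rcases PS3 hm hi with ⟨a1, a2, a3, a4⟩ | ⟨a1, a2, a3, a4⟩ | ⟨a1, a2, a3, a4⟩ | ⟨a1, a2, a3, a4⟩ | ⟨a1, a2, a3, a4⟩ | ⟨a1, a2, a3, a4⟩ | ⟨a1, a2, a3, a4⟩ <;> (rw [a4]; omega)

/-- the two new layers -/
theorem stp {m : ℕ} (hm : 3 ≤ m) : Stp (4 * m + 2) (X0 m) (Y2 m) (Z2 m) (8 * m + 5) := by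
  refine { ry := ?_, rz := ?_, yinj := ?_, zinj := ?_, yz := ?_, rs := ?_, sinj := ?_ }
  · intro i hi
    unfold Y2
    split_ifs <;> omega
  · intro i hi
    unfold Z2
    split_ifs <;> omega
  · intro i i' hi hi' hp he
    unfold Y2 at he
    split_ifs at he <;> omega
  · intro i i' hi hi' hp he
    unfold Z2 at he
    split_ifs at he <;> omega
  · intro i i' hi hi' hp he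
    unfold Y2 Z2 at he
    split_ifs at he <;> omega
  · intro e i he hi
    interval_cases e
    · exact RS0 hm hi
    · exact RS1 hm hi
    · exact RS2 hm hi
    · exact RS3 hm hi
  · intro e i e' i' he hi he' hi' h
    interval_cases e <;> interval_cases e'
    · exact ⟨rfl, QS0 hm hi hi' h⟩
    · exact absurd h (QS0_1 hm hi hi')
    · exact absurd h (QS0_2 hm hi hi')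
    · exact absurd h (QS0_3 hm hi hi')
    · exact absurd h.symm (QS0_1 hm hi' hi)
    · exact ⟨rfl, QS1 hm hi hi' h⟩
    · exact absurd h (QS1_2 hm hi hi')
    · exact absurd h (QS1_3 hm hi hi')
    · exact absurd h.symm (QS0_2 hm hi' hi)
    · exact absurd h.symm (QS1_2 hm hi' hi)
    · exact ⟨rfl, QS2 hm hi hi' h⟩
    · exact absurd h (QS2_3 hm hi hi')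
    · exact absurd h.symm (QS0_3 hm hi' hi)
    · exact absurd h.symm (QS1_3 hm hi' hi)
    · exact absurd h.symm (QS2_3 hm hi' hi)
    · exact ⟨rfl, QS3 hm hi hi' h⟩

theorem stp_rot {m : ℕ} (hm : 3 ≤ m) (i : ℕ) (hi : i < 4 * m + 2) : Z2 m (rot (4 * m + 2) 2 i) = X0 m i := by
  have h1 : (rot (4 * m + 2) 2 i = i + 2 ∧ i + 2 < 4 * m + 2) ∨ (rot (4 * m + 2) 2 i = i - 4 * m ∧ 4 * m ≤ i) := by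
    unfold rot
    split_ifs <;> omega
  rcases h1 with ⟨h1, h2⟩ | ⟨h1, h2⟩
  · rw [h1]
    unfold Z2 X0
    split_ifs <;> omega
  · rw [h1]
    unfold Z2 X0
    split_ifs <;> omega

end Pool.Agent.Q169.CY
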